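import Pool.Agent.Q175.HM.Ex

/-!
Homomorphisms of groups with a family of contractions.
-/

set_option autoImplicit false

open Set Filter Topology Function Cardinal

namespace Pool.Agent.Q175.HM

/-- a group with contractions `d s`, `0 < s ≤ 1` -/
structure DS (G : Type) [Group G] where
  d : ℝ → G →* G
  mul : ∀ s t : ℝ, 0 < s → s ≤ 1 → 0 < t → t ≤ 1 → ∀ g, d s (d t g) = d (s * t) g
  union : ∀ g, ∃ t : ℝ, 0 < t ∧ t < 1 ∧ ∃ h, g = d t h
  disp : ∃ r : ℝ, 0 < r ∧ r < 1 ∧ ∃ R : G, ∀ g h, Commute (d r g) (R * d r h * R⁻¹)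
  key : ∀ (A : Type) [AddCommGroup A] (c : G → A), (∀ φ ψ, c (ψ * φ * ψ⁻¹) = c φ) →
    (∀ φ ψ, φ * ψ = ψ * φ → c (φ * ψ) = c φ + c ψ) → ∀ s : ℝ, 0 < s → s < 1 →
    ∀ r : ℝ, 0 < r → r < (1 - s) / 2 → ∀ g, ∃ Φ, c (d r g) = c Φ - c (d s Φ)

variable {G : Type} [Group G] (S : DS G)

theorem DS.pow {s : ℝ} (hs : 0 < s) (hs1 : s ≤ 1) {X : Type} (w : G → X)
    (h : ∀ g, w (S.d s g) = w g) (k : ℕ) (hk : 0 < k) : ∀ g, w (S.d (s ^ k) g) = w g := by
  induction k, hk using Nat.le_induction with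
  | base =>
    intro g
    have h1 : s ^ (Nat.succ 0) = s := pow_one s
    rw [h1]
    exact h g
  | succ k hk ih =>
    intro g
    rw [pow_succ', ← S.mul s (s ^ k) hs hs1 (pow_pos hs k) (pow_le_one₀ hs.le hs1), h, ih]

/-- invariant class functions vanish -/
theorem DS.inv_class {A : Type} [AddCommGroup A] (c : G → A)
    (hconj : ∀ φ ψ, c (ψ * φ * ψ⁻¹) = c φ)
    (hcomm : ∀ φ ψ, φ * ψ = ψ * φ → c (φ * ψ) = c φ + c ψ) {s : ℝ} (hs : 0 < s) (hs1 : s < 1)
    (h : ∀ g, c (S.d s g) = c g) (g : G) : c g = 0 := by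
  obtain ⟨k, hk⟩ := exists_pow_lt_of_lt_one (show 0 < (1 - s) / 2 by linarith) hs1
  have hk' : s ^ (k + 1) < (1 - s) / 2 := by
    refine lt_of_le_of_lt ?_ hk
    rw [pow_succ]
    exact mul_le_of_le_one_right (pow_nonneg hs.le k) hs1.le
  obtain ⟨Φ, hΦ⟩ := S.key A c hconj hcomm s hs hs1 (s ^ (k + 1)) (pow_pos hs _) hk' g
  rw [S.pow hs hs1.le c h (k + 1) k.succ_pos, h, sub_self] at hΦ
  exact hΦ

/-- invariant homomorphisms are trivial -/
theorem DS.inv_hom {Q : Type} [Group Q] (w : G →* Q) {s : ℝ} (hs : 0 < s) (hs1 : s < 1)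
    (h : ∀ g, w (S.d s g) = w g) (g : G) : w g = 1 := by
  obtain ⟨r, hr, hr1, R, hR⟩ := S.disp
  obtain ⟨k, hk⟩ := exists_pow_lt_of_lt_one hr hs1
  have hk' : s ^ (k + 1) < r := by
    refine lt_of_le_of_lt ?_ hk
    rw [pow_succ]
    exact mul_le_of_le_one_right (pow_nonneg hs.le k) hs1.le
  have hpos : 0 < s ^ (k + 1) := pow_pos hs _
  have hfac : ∀ g, S.d (s ^ (k + 1)) g = S.d r (S.d (s ^ (k + 1) / r) g) := by
    intro g
    rw [S.mul r _ hr hr1.le (by positivity) ((div_le_one hr).2 hk'.le), mul_div_cancel₀ _ hr.ne']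
  have hw := S.pow hs hs1.le w h (k + 1) k.succ_pos
  have hc : ∀ a b, Commute (w a) (w b) := by
    intro a b
    have h1 := (hR (S.d (s ^ (k + 1) / r) a) (S.d (s ^ (k + 1) / r) (R⁻¹ * b * R))).map w
    rw [← hfac, ← hfac, hw, map_mul, map_mul, hw, ← map_mul, ← map_mul] at h1
    have h2 : R * (R⁻¹ * b * R) * R⁻¹ = b := by group
    rwa [h2] at h1
  let _ : CommGroup w.range :=
    { (inferInstance : Group w.range) with
      mul_comm := by
        rintro ⟨_, a, rfl⟩ ⟨_, b, rfl⟩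
        exact Subtype.ext (hc a b) }
  have h3 := S.inv_class (A := Additive w.range) (fun g => Additive.ofMul (w.rangeRestrict g))
    (fun φ ψ => by
      have e : w.rangeRestrict (ψ * φ * ψ⁻¹) = w.rangeRestrict φ := by
        rw [map_mul, map_mul, map_inv, mul_comm (w.rangeRestrict ψ), mul_inv_cancel_right]
      rw [e])
    (fun φ ψ _ => by rw [map_mul, ofMul_mul]) hs hs1 (fun g => by
      congr 1
      exact Subtype.ext (h g)) g
  have h4 : w.rangeRestrict g = 1 := h3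
  exact congrArg Subtype.val h4

theorem pigeon {X : Type} (hX : Cardinal.mk X < 𝔠) (f : ℝ → X) {a b : ℝ} (hab : a < b) :
    ∃ t u, a < t ∧ t < u ∧ u < b ∧ f t = f u := by
  by_contra hc
  push Not at hc
  have hinj : Injective fun t : Ioo a b => f t := by
    intro t u htu
    rcases lt_trichotomy (t : ℝ) u with h | h | h
    · exact absurd htu (hc t u t.2.1 h u.2.2)
    · exact Subtype.ext h
    · exact absurd htu.symm (hc u t u.2.1 h t.2.2)
  have h1 := Cardinal.mk_le_of_injective hinj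
  rw [Cardinal.mk_Ioo_real hab] at h1
  exact absurd h1 (not_le.2 hX)

/-- dilation invariant sets of fewer than continuum many homomorphisms are trivial -/
theorem DS.small_hom {Q : Type} [Group Q] (X : Set (G →* Q)) (hX : Cardinal.mk X < 𝔠)
    (hcl : ∀ s : ℝ, 0 < s → s < 1 → ∀ w ∈ X, w.comp (S.d s) ∈ X) (w : G →* Q) (hw : w ∈ X) :
    w = 1 := by
  classical
  ext g
  obtain ⟨t, ht, ht1, h, rfl⟩ := S.union g
  let f : ℝ → X := fun u => if hu : 0 < u ∧ u < 1 then ⟨w.comp (S.d u), hcl u hu.1 hu.2 w hw⟩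
    else ⟨w, hw⟩
  obtain ⟨u, v, hu, huv, hv, hf⟩ := pigeon hX f ht1
  have hu0 : 0 < u := ht.trans hu
  have hv0 : 0 < v := hu0.trans huv
  simp only [f] at hf
  rw [dif_pos ⟨hu0, huv.trans hv⟩, dif_pos ⟨hv0, hv⟩] at hf
  have hf' : w.comp (S.d u) = w.comp (S.d v) := congrArg Subtype.val hf
  have h1 : ∀ g, w.comp (S.d v) g = 1 := by
    refine S.inv_hom (w.comp (S.d v)) (s := u / v) (by positivity) ((div_lt_one hv0).2 huv)
      fun g => ?_
    change w (S.d v (S.d (u / v) g)) = w.comp (S.d v) g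
    rw [S.mul v _ hv0 hv.le (by positivity) ((div_le_one hv0).2 huv.le),
      mul_div_cancel₀ _ hv0.ne', ← hf']
    rfl
  have h2 := h1 (S.d (t / v) h)
  change w (S.d v (S.d (t / v) h)) = 1 at h2
  rw [S.mul v _ hv0 hv.le (by positivity) ((div_le_one hv0).2 (hu.trans huv).le),
    mul_div_cancel₀ _ hv0.ne'] at h2
  exact h2

/-- dilation invariant sets of fewer than continuum many class functions are trivial -/
theorem DS.small_class {A : Type} [AddCommGroup A] (X : Set (G → A)) (hX : Cardinal.mk X < 𝔠)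
    (hconj : ∀ c ∈ X, ∀ φ ψ, c (ψ * φ * ψ⁻¹) = c φ)
    (hcomm : ∀ c ∈ X, ∀ φ ψ, φ * ψ = ψ * φ → c (φ * ψ) = c φ + c ψ)
    (hcl : ∀ s : ℝ, 0 < s → s < 1 → ∀ w ∈ X, (fun g => w (S.d s g)) ∈ X) (w : G → A)
    (hw : w ∈ X) (g : G) : w g = 0 := by
  classical
  obtain ⟨t, ht, ht1, h, rfl⟩ := S.union g
  let f : ℝ → X := fun u => if hu : 0 < u ∧ u < 1 then
    ⟨fun g => w (S.d u g), hcl u hu.1 hu.2 w hw⟩ else ⟨w, hw⟩
  obtain ⟨u, v, hu, huv, hv, hf⟩ := pigeon hX f ht1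
  have hu0 : 0 < u := ht.trans hu
  have hv0 : 0 < v := hu0.trans huv
  simp only [f] at hf
  rw [dif_pos ⟨hu0, huv.trans hv⟩, dif_pos ⟨hv0, hv⟩] at hf
  have hf' : (fun g => w (S.d u g)) = fun g => w (S.d v g) := congrArg Subtype.val hf
  have hX' := hcl v hv0 hv w hw
  have h1 : ∀ g, w (S.d v g) = 0 := by
    refine S.inv_class (fun g => w (S.d v g)) (hconj _ hX') (hcomm _ hX') (s := u / v)
      (by positivity) ((div_lt_one hv0).2 huv) fun g => ?_
    rw [S.mul v _ hv0 hv.le (by positivity) ((div_le_one hv0).2 huv.le),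
      mul_div_cancel₀ _ hv0.ne']
    exact congrFun hf' g
  have h2 := h1 (S.d (t / v) h)
  rw [S.mul v _ hv0 hv.le (by positivity) ((div_le_one hv0).2 (hu.trans huv).le),
    mul_div_cancel₀ _ hv0.ne'] at h2
  exact h2

end Pool.Agent.Q175.HM
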