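import Pool.Agent.Q175.HM.Abs

/-!
Consequences for quotients and homomorphisms to fields.
-/

set_option autoImplicit false

open Set Filter Topology Function Cardinal

namespace Pool.Agent.Q175.HM

theorem countable_of_closure {K : Type} [Group K] (T : Set K) (hT : T.Countable)
    (h : Subgroup.closure T = ⊤) : Countable K := by
  have h1 : (T ∪ T⁻¹).Countable := by
    refine hT.union ?_
    rw [← Set.image_inv_eq_inv]
    exact hT.image _
  have : Countable (T ∪ T⁻¹ : Set K) := h1.to_subtype
  have hs : Surjective fun l : List (T ∪ T⁻¹ : Set K) => (l.map Subtype.val).prod := by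
    intro x
    have hx : x ∈ (Subgroup.closure T).toSubmonoid := by
      rw [h]
      exact Subgroup.mem_top x
    rw [Subgroup.closure_toSubmonoid] at hx
    obtain ⟨l, hl, rfl⟩ := Submonoid.exists_list_of_mem_closure hx
    refine ⟨l.attachWith _ fun y hy => hl y hy, ?_⟩
    simp
  exact hs.countable

variable {G : Type} [Group G] (S : DS G)

theorem mk_lt_of_countable {X : Type} [Countable X] : Cardinal.mk X < 𝔠 :=
  lt_of_le_of_lt (Cardinal.mk_le_aleph0) Cardinal.aleph0_lt_continuum

/-- dilation invariant normal subgroups with finitely generated quotient -/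
theorem DS.fg (N : Subgroup G) [N.Normal] (hN : ∀ s : ℝ, 0 < s → s < 1 → ∀ g ∈ N, S.d s g ∈ N)
    (T : Finset G) (hT : N ⊔ Subgroup.closure (T : Set G) = ⊤) : N = ⊤ := by
  classical
  have h1 : Subgroup.closure ((QuotientGroup.mk' N) '' (T : Set G)) = ⊤ := by
    rw [← MonoidHom.map_closure, ← top_le_iff,
      ← Subgroup.map_top_of_surjective (QuotientGroup.mk' N) (QuotientGroup.mk'_surjective N),
      ← hT, Subgroup.map_sup]
    refine sup_le ?_ le_rfl
    rintro _ ⟨g, hg, rfl⟩
    rw [QuotientGroup.mk'_apply, (QuotientGroup.eq_one_iff g).2 hg]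
    exact Subgroup.one_mem _
  have : Countable (G ⧸ N) :=
    countable_of_closure _ ((T.finite_toSet.image _).countable) h1
  let X : Set (G →* G ⧸ N) := {w | ∀ g ∈ N, w g = 1}
  have hinj : Injective fun (w : X) (t : T) => (w : G →* G ⧸ N) t := by
    rintro ⟨w, hw⟩ ⟨w', hw'⟩ h
    apply Subtype.ext
    change w = w'
    have h2 : (⊤ : Subgroup G) ≤ MonoidHom.eqLocus w w' := by
      rw [← hT]
      refine sup_le (fun g hg => ?_) ((Subgroup.closure_le _).2 fun t ht => ?_)
      · change w g = w' g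
        rw [hw g hg, hw' g hg]
      · exact congrFun h ⟨t, ht⟩
    ext g
    exact h2 (Subgroup.mem_top g)
  have : Countable X := hinj.countable
  have h3 := S.small_hom X mk_lt_of_countable (fun s hs hs1 w hw g hg =>
    hw _ (hN s hs hs1 g hg)) (QuotientGroup.mk' N) (fun g hg => (QuotientGroup.eq_one_iff g).2 hg)
  rw [eq_top_iff]
  intro g _
  exact (QuotientGroup.eq_one_iff g).1 (DFunLike.congr_fun h3 g)

/-- powers of elements of finite monoids become idempotent -/
theorem exists_idem {M : Type} [Monoid M] [Finite M] :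
    ∃ N : ℕ, 0 < N ∧ ∀ x : M, x ^ N * x ^ N = x ^ N := by
  classical
  have h1 : ∀ x : M, ∃ k : ℕ, 0 < k ∧ x ^ k * x ^ k = x ^ k := by
    intro x
    obtain ⟨i, j, hij, he⟩ : ∃ i j : ℕ, i < j ∧ x ^ i = x ^ j := by
      obtain ⟨i, j, hne, he⟩ := Finite.exists_ne_map_eq_of_infinite fun k : ℕ => x ^ k
      rcases lt_or_gt_of_ne hne with h | h
      · exact ⟨i, j, h, he⟩
      · exact ⟨j, i, h, he.symm⟩
    obtain ⟨p, rfl⟩ := Nat.exists_eq_add_of_lt hij
    have h2 : ∀ m, i ≤ m → x ^ (m + (p + 1)) = x ^ m := by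
      intro m hm
      obtain ⟨l, rfl⟩ := Nat.exists_eq_add_of_le hm
      rw [show i + l + (p + 1) = (i + p + 1) + l by ring, pow_add, ← he, ← pow_add]
    have h3 : ∀ q m, i ≤ m → x ^ (m + q * (p + 1)) = x ^ m := by
      intro q
      induction q with
      | zero => intro m _; rw [zero_mul, add_zero]
      | succ q ih =>
        intro m hm
        rw [show m + (q + 1) * (p + 1) = (m + q * (p + 1)) + (p + 1) by ring,
          h2 _ (by omega), ih m hm]
    refine ⟨(i + 1) * (p + 1), by positivity, ?_⟩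
    rw [← pow_add]
    exact h3 _ _ (by nlinarith)
  choose k hk0 hk using h1
  have := Fintype.ofFinite M
  refine ⟨∏ x, k x, Finset.prod_pos fun x _ => hk0 x, fun x => ?_⟩
  obtain ⟨c, hc⟩ := Finset.dvd_prod_of_mem k (Finset.mem_univ x)
  have h2 : IsIdempotentElem (x ^ k x) := hk x
  rw [hc, pow_mul]
  exact h2.pow c

/-- homomorphisms of the multiplicative semigroup `(0,1]` to finite monoids -/
theorem const_finite {M : Type} [Monoid M] [Finite M] (T : ℝ → M)
    (hT : ∀ s t : ℝ, 0 < s → s ≤ 1 → 0 < t → t ≤ 1 → T (s * t) = T s * T t) {s t : ℝ}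
    (hs : 0 < s) (hs1 : s < 1) (ht : 0 < t) (ht1 : t < 1) : T s = T t := by
  obtain ⟨N, hN, hid⟩ := exists_idem (M := M)
  have hpow : ∀ (s : ℝ), 0 < s → s ≤ 1 → ∀ k : ℕ, 0 < k → T (s ^ k) = T s ^ k := by
    intro s hs hs1 k hk
    induction k, hk using Nat.le_induction with
    | base =>
      have h1 : s ^ (Nat.succ 0) = s := pow_one s
      have h2 : T s ^ (Nat.succ 0) = T s := pow_one _
      rw [h1, h2]
    | succ k hk ih =>
      rw [pow_succ', hT s _ hs hs1 (pow_pos hs k) (pow_le_one₀ hs.le hs1), ih, pow_succ']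
  have hidem : ∀ s : ℝ, 0 < s → s < 1 → T s * T s = T s := by
    intro s hs hs1
    have h1 : (s ^ (1 / (N : ℝ))) ^ N = s := by
      rw [one_div, Real.rpow_inv_natCast_pow hs.le hN.ne']
    have h2 : 0 < s ^ (1 / (N : ℝ)) := Real.rpow_pos_of_pos hs _
    have h3 : s ^ (1 / (N : ℝ)) ≤ 1 := Real.rpow_le_one hs.le hs1.le (by positivity)
    rw [← h1, hpow _ h2 h3 N hN]
    exact hid _
  have key : ∀ s t : ℝ, 0 < s → s < 1 → 0 < t → t < 1 → s ≤ t → T s = T t := by
    intro s t hs hs1 ht ht1 hst
    obtain ⟨k, hk⟩ := exists_pow_lt_of_lt_one hs ht1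
    have hk1 : t ^ (k + 1) < s := by
      refine lt_of_le_of_lt ?_ hk
      rw [pow_succ]
      exact mul_le_of_le_one_right (pow_nonneg ht.le k) ht1.le
    have h1 : T t = T s * T (t ^ (k + 1) / s) := by
      rw [← hT s _ hs hs1.le (by positivity) ((div_le_one hs).2 hk1.le), mul_div_cancel₀ _ hs.ne',
        hpow t ht ht1.le _ k.succ_pos]
      have h2 : IsIdempotentElem (T t) := hidem t ht ht1
      exact (h2.pow_succ_eq k).symm
    have h3 : T s = T t * T (s / t) := by
      rw [← hT t _ ht ht1.le (by positivity) ((div_le_one ht).2 hst), mul_div_cancel₀ _ ht.ne']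
    have h4 : T s * T t = T t := by
      rw [h1, ← mul_assoc, hidem s hs hs1]
    have h5 : T t * T s = T s := by
      rw [h3, ← mul_assoc, hidem t ht ht1]
    have h6 : T s * T t = T t * T s := by
      rw [← hT s t hs hs1.le ht ht1.le, ← hT t s ht ht1.le hs hs1.le, mul_comm]
    rw [← h4, h6, h5]
  rcases le_total s t with h | h
  · exact key s t hs hs1 ht ht1 h
  · exact (key t s ht ht1 hs hs1 h).symm

end Pool.Agent.Q175.HM
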