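import Pool.Agent.Q175.HM.Cor

/-!
Homomorphisms to fields, and quotients of finite rank.
-/

set_option autoImplicit false

open Set Filter Topology Function Cardinal

namespace Pool.Agent.Q175.HM

variable {G : Type} [Group G]

theorem mk_basis_lt {k V : Type} [Field k] [Countable k] [AddCommGroup V] [Module k V] {ι : Type}
    (b : Module.Basis ι k V) (h : Cardinal.mk ι < 𝔠) : Cardinal.mk V < 𝔠 := by
  rw [Cardinal.mk_congr b.repr.toEquiv]
  rcases finite_or_infinite ι with hi | hi
  · exact mk_lt_of_countable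
  · rw [Cardinal.mk_finsupp_of_infinite]
    exact max_lt h mk_lt_of_countable

theorem DS.field_aux (S : DS G) (k F : Type) [Field k] [Field F] [Algebra k F] [Countable k]
    (h : Module.rank F (Additive G →+ F) < 𝔠) (w : Additive G →+ F) : w = 0 := by
  classical
  let b := Module.Basis.ofVectorSpace k (Additive G →+ k)
  let v : Module.Basis.ofVectorSpaceIndex k (Additive G →+ k) → (Additive G →+ F) :=
    fun i => (algebraMap k F : k →+ F).comp (b i)
  have hv : LinearIndependent F v := by
    rw [linearIndependent_iff']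
    intro s c hc i hi
    rw [← Module.forall_dual_apply_eq_zero_iff k]
    intro l
    have h1 : ∑ i ∈ s, l (c i) • b i = 0 := by
      refine AddMonoidHom.ext fun x => ?_
      have h2 : (∑ i ∈ s, c i • v i) x = 0 := by
        rw [hc]
        rfl
      rw [AddMonoidHom.finsetSum_apply] at h2
      have h3 := congrArg l h2
      rw [map_zero, map_sum] at h3
      rw [AddMonoidHom.finsetSum_apply, AddMonoidHom.zero_apply, ← h3]
      refine Finset.sum_congr rfl fun j _ => ?_
      have h4 : (c j • v j) x = (b j x) • c j := by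
        rw [Algebra.smul_def, mul_comm]
        rfl
      rw [h4, map_smul, smul_eq_mul, mul_comm]
      rfl
    exact (linearIndependent_iff'.1 b.linearIndependent) s _ h1 i hi
  have h1 : Cardinal.mk (Additive G →+ k) < 𝔠 :=
    mk_basis_lt b (lt_of_le_of_lt hv.cardinal_le_rank h)
  have h2 : ∀ u : G →* Multiplicative k, u = 1 := by
    intro u
    refine S.small_hom (Q := Multiplicative k) Set.univ ?_ (fun _ _ _ _ _ => mem_univ _) u
      (mem_univ u)
    rw [Cardinal.mk_univ]
    refine lt_of_le_of_lt ?_ h1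
    refine Cardinal.mk_le_of_injective (f := fun u : G →* Multiplicative k =>
      ({ toFun := fun a => (u (Additive.toMul a)).toAdd
         map_zero' := by
           change (u 1).toAdd = 0
           rw [map_one]
           rfl
         map_add' := fun x y => by
           change (u (Additive.toMul x * Additive.toMul y)).toAdd = _
           rw [map_mul]
           rfl } : Additive G →+ k)) ?_
    intro u u' huu
    ext g
    exact DFunLike.congr_fun huu (Additive.ofMul g)
  refine AddMonoidHom.ext fun x => ?_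
  rw [AddMonoidHom.zero_apply, ← Module.forall_dual_apply_eq_zero_iff k]
  intro l
  have h3 := h2
    { toFun := fun g => Multiplicative.ofAdd (l (w (Additive.ofMul g)))
      map_one' := by
        rw [ofMul_one, map_zero, map_zero]
        rfl
      map_mul' := fun x y => by
        rw [ofMul_mul, map_add, map_add]
        rfl }
  exact DFunLike.congr_fun h3 (Additive.toMul x)

/-- the space of homomorphisms to a field is zero or of dimension at least the continuum -/
theorem DS.field (S : DS G) (F : Type) [Field F] (h : Module.rank F (Additive G →+ F) < 𝔠)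
    (w : Additive G →+ F) : w = 0 := by
  obtain ⟨p, hp⟩ := CharP.exists F
  rcases CharP.char_is_prime_or_zero F p with hpp | hp0
  · have : Fact p.Prime := ⟨hpp⟩
    let _ := ZMod.algebra F p
    exact S.field_aux (ZMod p) F h w
  · subst hp0
    have := CharP.charP_to_charZero F
    exact S.field_aux ℚ F h w

/-- homomorphisms to the rationals of abelian groups with an element of infinite order -/
theorem exists_rat {A : Type} [AddCommGroup A] (x : A) (hx : ∀ m : ℕ, 0 < m → m • x ≠ 0) :
    ∃ f : A →+ ℚ, f x ≠ 0 := by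
  have h1 : IsLocalizedModule (nonZeroDivisors ℤ) (TensorProduct.mk ℤ ℚ A 1) :=
    (isLocalizedModule_iff_isBaseChange (nonZeroDivisors ℤ) ℚ _).2
      (TensorProduct.isBaseChange ℤ A ℚ)
  have h2 : TensorProduct.mk ℤ ℚ A 1 x ≠ 0 := by
    intro h
    obtain ⟨c, hc⟩ := (IsLocalizedModule.eq_zero_iff (nonZeroDivisors ℤ)
      (TensorProduct.mk ℤ ℚ A 1)).1 h
    have hc0 : (c : ℤ) ≠ 0 := nonZeroDivisors.coe_ne_zero c
    refine hx (c : ℤ).natAbs (Int.natAbs_pos.2 hc0) ?_
    have hc' : (c : ℤ) • x = 0 := hc
    rcases Int.natAbs_eq (c : ℤ) with h3 | h3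
    · rw [h3, natCast_zsmul] at hc'
      exact hc'
    · rw [h3, neg_smul, natCast_zsmul, neg_eq_zero] at hc'
      exact hc'
  by_contra hc
  push Not at hc
  apply h2
  rw [← Module.forall_dual_apply_eq_zero_iff ℚ]
  intro l
  exact hc ((l.toAddMonoidHom).comp (TensorProduct.mk ℤ ℚ A 1).toAddMonoidHom)

/-- dilation invariant normal subgroups with abelian quotients of finite rank -/
theorem DS.rank (S : DS G) (N : Subgroup G) [N.Normal]
    (hN : ∀ s : ℝ, 0 < s → s < 1 → ∀ g ∈ N, S.d s g ∈ N)
    (hab : ∀ g h : G, g * h * g⁻¹ * h⁻¹ ∈ N)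
    (hfin : ∀ m : ℕ, 0 < m → {x : G ⧸ N | x ^ m = 1}.Finite)
    (T : Finset G) (hT : ∀ g, ∃ m : ℕ, 0 < m ∧ g ^ m ∈ N ⊔ Subgroup.closure (T : Set G)) :
    N = ⊤ := by
  classical
  -- homomorphisms to the rationals
  let X : Set (G →* Multiplicative ℚ) := {w | ∀ g ∈ N, w g = 1}
  have hinj : Injective fun (w : X) (t : T) => (w : G →* Multiplicative ℚ) t := by
    rintro ⟨w, hw⟩ ⟨w', hw'⟩ h
    apply Subtype.ext
    change w = w'
    have h2 : N ⊔ Subgroup.closure (T : Set G) ≤ MonoidHom.eqLocus w w' := by
      refine sup_le (fun g hg => ?_) ((Subgroup.closure_le _).2 fun t ht => ?_)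
      · change w g = w' g
        rw [hw g hg, hw' g hg]
      · exact congrFun h ⟨t, ht⟩
    ext g
    obtain ⟨m, hm, hg⟩ := hT g
    have h3 : w (g ^ m) = w' (g ^ m) := h2 hg
    rw [map_pow, map_pow] at h3
    have h4 : m • (w g).toAdd = m • (w' g).toAdd := h3
    have h5 : (m : ℚ) ≠ 0 := by exact_mod_cast hm.ne'
    rw [nsmul_eq_mul, nsmul_eq_mul] at h4
    exact mul_left_cancel₀ h5 h4
  have : Countable (Multiplicative ℚ) := inferInstanceAs (Countable ℚ)
  have hXc : Countable X := hinj.countable
  have hX : ∀ w ∈ X, w = 1 := fun w hw =>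
    S.small_hom X mk_lt_of_countable (fun s hs hs1 w hw g hg => hw _ (hN s hs hs1 g hg)) w hw
  -- the quotient is a torsion group
  let _ : CommGroup (G ⧸ N) :=
    { (inferInstance : Group (G ⧸ N)) with
      mul_comm := by
        intro x y
        induction x using QuotientGroup.induction_on with
        | H g =>
          induction y using QuotientGroup.induction_on with
          | H h =>
            change ((g * h : G) : G ⧸ N) = ((h * g : G) : G ⧸ N)
            rw [QuotientGroup.eq]
            have := hab h⁻¹ g⁻¹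
            rw [inv_inv, inv_inv] at this
            have e : (g * h)⁻¹ * (h * g) = h⁻¹ * g⁻¹ * h * g := by group
            rw [e]
            exact this }
  have htor : ∀ x : G ⧸ N, ∃ m : ℕ, 0 < m ∧ x ^ m = 1 := by
    intro x
    by_contra hc
    push Not at hc
    obtain ⟨f, hf⟩ := exists_rat (A := Additive (G ⧸ N)) (Additive.ofMul x) (fun m hm h => hc m hm h)
    induction x using QuotientGroup.induction_on with
    | H g =>
      let w : G →* Multiplicative ℚ :=
        { toFun := fun g => Multiplicative.ofAdd (f (Additive.ofMul ((g : G) : G ⧸ N)))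
          map_one' := by
            rw [QuotientGroup.mk_one, ofMul_one, map_zero]
            rfl
          map_mul' := fun a b => by
            rw [QuotientGroup.mk_mul, ofMul_mul, map_add]
            rfl }
      have h1 := hX w fun g hg => by
        change Multiplicative.ofAdd (f (Additive.ofMul ((g : G) : G ⧸ N))) = 1
        rw [(QuotientGroup.eq_one_iff g).2 hg, ofMul_one, map_zero]
        rfl
      exact hf (DFunLike.congr_fun h1 g)
  -- dilations of the quotient
  have hd1 : ∀ g, S.d 1 g = g := by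
    intro g
    obtain ⟨t, ht, ht1, h, rfl⟩ := S.union g
    rw [S.mul 1 t one_pos le_rfl ht ht1.le, one_mul]
  have hN' : ∀ s : ℝ, 0 < s → s ≤ 1 → N ≤ N.comap (S.d s) := by
    intro s hs hs1 g hg
    rcases hs1.lt_or_eq with h | h
    · exact hN s hs h g hg
    · subst h
      change S.d 1 g ∈ N
      rw [hd1]
      exact hg
  let δ : ℝ → (G ⧸ N) →* (G ⧸ N) := fun s => if h : 0 < s ∧ s ≤ 1 then
    QuotientGroup.map N N (S.d s) (hN' s h.1 h.2) else MonoidHom.id _
  have hδ : ∀ s : ℝ, 0 < s → s ≤ 1 → ∀ g : G, δ s ((g : G) : G ⧸ N) = ((S.d s g : G) : G ⧸ N) := by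
    intro s hs hs1 g
    simp only [δ]
    rw [dif_pos ⟨hs, hs1⟩]
    rfl
  have hδm : ∀ s t : ℝ, 0 < s → s ≤ 1 → 0 < t → t ≤ 1 → ∀ x, δ (s * t) x = δ s (δ t x) := by
    intro s t hs hs1 ht ht1 x
    induction x using QuotientGroup.induction_on with
    | H g =>
      rw [hδ _ (mul_pos hs ht) (mul_le_one₀ hs1 ht.le ht1), hδ t ht ht1, hδ s hs hs1,
        S.mul s t hs hs1 ht ht1]
  have hconst : ∀ s t : ℝ, 0 < s → s < 1 → 0 < t → t < 1 → ∀ x, δ s x = δ t x := by
    intro s t hs hs1 ht ht1 x
    obtain ⟨m, hm, hx⟩ := htor x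
    have : Finite {x : G ⧸ N | x ^ m = 1} := hfin m hm
    let M : Type := Function.End {x : G ⧸ N | x ^ m = 1}
    have : Finite M := inferInstanceAs (Finite ({x : G ⧸ N | x ^ m = 1} → {x : G ⧸ N | x ^ m = 1}))
    let Tm : ℝ → M := fun s x => ⟨δ s x.1, by
      change δ s x.1 ^ m = 1
      rw [← map_pow, x.2, map_one]⟩
    have h1 := const_finite (M := M) Tm (fun s t hs hs1 ht ht1 => by
      funext x
      apply Subtype.ext
      exact hδm s t hs hs1 ht ht1 x.1) hs hs1 ht ht1
    exact congrArg Subtype.val (congrFun h1 ⟨x, hx⟩)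
  -- conclusion
  have h12 : (0 : ℝ) < 1 / 2 := by norm_num
  have h121 : (1 / 2 : ℝ) < 1 := by norm_num
  let Y : Set (G →* G ⧸ N) := {QuotientGroup.mk' N, (QuotientGroup.mk' N).comp (S.d (1 / 2))}
  have hY : Cardinal.mk Y < 𝔠 := by
    have : Y.Finite := by
      simp only [Y]
      exact Set.toFinite _
    have : Finite Y := this
    exact mk_lt_of_countable
  have hst : ∀ s : ℝ, 0 < s → s < 1 → (QuotientGroup.mk' N).comp (S.d s) =
      (QuotientGroup.mk' N).comp (S.d (1 / 2)) := by
    intro s hs hs1
    ext g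
    change ((S.d s g : G) : G ⧸ N) = ((S.d (1 / 2) g : G) : G ⧸ N)
    rw [← hδ s hs hs1.le, ← hδ _ h12 h121.le]
    exact hconst s _ hs hs1 h12 h121 _
  have h3 := S.small_hom Y hY (fun s hs hs1 w hw => by
    have e1 : w.comp (S.d s) = (QuotientGroup.mk' N).comp (S.d (1 / 2)) := by
      rcases hw with rfl | hw
      · exact hst s hs hs1
      · rw [mem_singleton_iff] at hw
        subst hw
        refine Eq.trans ?_ (hst (1 / 2 * s) (by positivity) (by nlinarith))
        ext g
        change ((S.d (1 / 2) (S.d s g) : G) : G ⧸ N) = ((S.d (1 / 2 * s) g : G) : G ⧸ N)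
        rw [S.mul _ _ h12 h121.le hs hs1.le]
    rw [e1]
    exact Or.inr rfl) (QuotientGroup.mk' N) (Or.inl rfl)
  rw [eq_top_iff]
  intro g _
  exact (QuotientGroup.eq_one_iff g).1 (DFunLike.congr_fun h3 g)

end Pool.Agent.Q175.HM
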