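import Pool.Agent.Q175.HM.Li

/-!
Every Hamiltonian homeomorphism of the ball is the conjugate by a dilation of ratio `< 1` of a
Hamiltonian homeomorphism of the ball.
-/

set_option autoImplicit false

open Set Filter Topology Function

namespace Pool.Agent.Q175.HM

open Pool.Agent.Y453.HB

variable {n : ℕ}

/-- `u` is the time one map of a Hamiltonian with compact support in the open ball of radius `R` -/
def HamIn (R : ℝ) (u : E n ≃ₜ E n) : Prop :=
  ∃ H : ℝ → E n → ℝ, Smo (uncurry H) ∧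
    (∃ K : Set (E n), IsCompact K ∧ K ⊆ {p : E n | Q p < R ^ 2} ∧
      ∀ t : ℝ, ∀ x, x ∉ K → H t x = 0) ∧
    ∃ ψ : ℝ → E n → E n, (∀ x, ψ 0 x = x) ∧
      (∀ (t : ℝ) (x : E n), HasDerivAt (fun s : ℝ => ψ s x) (XH (H t) (ψ t x)) t) ∧
      ∀ x, u x = ψ 1 x

theorem hamIn_one {u : E n ≃ₜ E n} : HamIn 1 u ↔ IsHam u := by
  unfold HamIn IsHam
  rw [one_pow]

theorem hamIn_dil {R s : ℝ} (hs : 0 < s) {u : E n ≃ₜ E n} (hu : HamIn R u) :
    HamIn (s * R) (dil s hs * u * (dil s hs)⁻¹) := by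
  obtain ⟨H, hH, ⟨K, hK, hKQ, hK0⟩, ψ, hψ0, hψ, hu⟩ := hu
  have hs0 : s ≠ 0 := hs.ne'
  refine ⟨fun t x => s ^ 2 * H t (s⁻¹ • x), ?_, ⟨(fun x => s • x) '' K, ?_, ?_, ?_⟩,
    fun t x => s • ψ t (s⁻¹ • x), ?_, ?_, ?_⟩
  · have h1 : ContDiff ℝ ((⊤ : ℕ∞) : WithTop ℕ∞)
        (fun q : ℝ × E n => s ^ 2 * Function.uncurry H (q.1, s⁻¹ • q.2)) := by
      refine contDiff_const.mul (hH.comp ?_)
      exact contDiff_fst.prodMk (contDiff_snd.const_smul s⁻¹)
    exact h1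
  · exact hK.image (continuous_const_smul s)
  · rintro _ ⟨x, hx, rfl⟩
    have h1 : Q x < R ^ 2 := hKQ hx
    show Q (s • x) < (s * R) ^ 2
    rw [Q_smul, mul_pow]
    have : 0 < s ^ 2 := by positivity
    exact mul_lt_mul_of_pos_left h1 this
  · intro t x hx
    have h1 : s⁻¹ • x ∉ K := by
      intro h
      exact hx ⟨s⁻¹ • x, h, smul_inv_smul₀ hs0 x⟩
    show s ^ 2 * H t (s⁻¹ • x) = 0
    rw [hK0 t _ h1, mul_zero]
  · intro x
    show s • ψ 0 (s⁻¹ • x) = x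
    rw [hψ0, smul_inv_smul₀ hs0]
  · intro t x
    have hd : Differentiable ℝ (H t) := (smo_slice hH t).differentiable (by simp)
    have h2 := (hψ t (s⁻¹ • x)).const_smul s
    have h3 : XH (fun y => s ^ 2 * H t (s⁻¹ • y)) (s • ψ t (s⁻¹ • x))
        = s • XH (H t) (ψ t (s⁻¹ • x)) := by
      rw [Pool.Agent.Y419.HB.XH_scale (H t) hd s hs0, inv_smul_smul₀ hs0]
    show HasDerivAt (fun r : ℝ => s • ψ r (s⁻¹ • x))
      (XH (fun y => s ^ 2 * H t (s⁻¹ • y)) (s • ψ t (s⁻¹ • x))) t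
    rw [h3]
    exact h2
  · intro x
    show s • u (s⁻¹ • x) = s • ψ 1 (s⁻¹ • x)
    rw [hu]

/-- the isotopy from the identity to `u δ_a u⁻¹ δ_a⁻¹` by conjugation with dilations -/
theorem hamIn_comm {a R : ℝ} (ha : 0 < a) (haR : a < R) (ha1 : a ≤ 1) {u : E n ≃ₜ E n}
    (hu : IsHam u) (hs : ∀ x, a ^ 2 < Q x → u x = x) :
    HamIn R (u * (dil a ha * u * (dil a ha)⁻¹)⁻¹) := by
  obtain ⟨g, sg, hg0, hg⟩ := prim hu (sq_nonneg a) hs
  obtain ⟨su, -⟩ := ham_smooth hu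
  have du : Differentiable ℝ (u : E n → E n) := su.differentiable (by simp)
  have hst := contDiff_infty_iff_deriv.1 st_smo
  set σ : ℝ → ℝ := fun t => a + (1 - a) * st t with hσ
  have h01 : ∀ t, 0 ≤ st t ∧ st t ≤ 1 := fun t =>
    ⟨Real.smoothTransition.nonneg t, Real.smoothTransition.le_one t⟩
  have hσpos : ∀ t, 0 < σ t := fun t => by
    have h1 := (h01 t).1
    have h2 : 0 ≤ 1 - a := by linarith
    simp only [hσ]
    positivity
  have hσ1 : ∀ t, σ t ≤ 1 := fun t => by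
    have h1 := (h01 t).2
    have h2 : 0 ≤ 1 - a := by linarith
    simp only [hσ]
    nlinarith
  have sσ : Smo σ := contDiff_const.add (contDiff_const.mul st_smo)
  have hσd := contDiff_infty_iff_deriv.1 sσ
  set V : E n ≃ₜ E n := dil a ha * u * (dil a ha)⁻¹ with hV
  refine ⟨fun t x => (deriv σ t * σ t) * g ((σ t)⁻¹ • x), ?_,
    ⟨{x | Q x ≤ a ^ 2}, Q_compact _, fun x hx => ?_, fun t x hx => ?_⟩,
    fun t x => σ t • u ((σ t)⁻¹ • (V⁻¹ : E n ≃ₜ E n) x), fun x => ?_, fun t x => ?_, fun x => ?_⟩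
  · have e1 : Smo (fun p : ℝ × E n => (σ p.1)⁻¹ • p.2) :=
      (((sσ.comp contDiff_fst).inv fun p => (hσpos _).ne')).smul contDiff_snd
    exact ((hσd.2.comp contDiff_fst).mul (sσ.comp contDiff_fst)).mul (sg.comp e1)
  · have : Q x ≤ a ^ 2 := hx
    change Q x < R ^ 2
    nlinarith
  · have hx' : a ^ 2 < Q x := not_le.1 hx
    have e1 : a ^ 2 < Q ((σ t)⁻¹ • x) := by
      rw [Q_smul]
      have h1 : (1 : ℝ) ≤ (σ t)⁻¹ := (one_le_inv₀ (hσpos t)).2 (hσ1 t)
      have h2 : (1 : ℝ) ≤ (σ t)⁻¹ ^ 2 := one_le_pow₀ h1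
      exact lt_of_lt_of_le hx' (le_mul_of_one_le_left (Q_nonneg x) h2)
    show (deriv σ t * σ t) * g ((σ t)⁻¹ • x) = 0
    rw [hg0 _ e1, mul_zero]
  · have e1 : σ 0 = a := by
      simp only [hσ]
      rw [st_zero le_rfl, mul_zero, add_zero]
    show σ 0 • u ((σ 0)⁻¹ • (V⁻¹ : E n ≃ₜ E n) x) = x
    rw [e1]
    exact apply_inv_self V x
  · set y := (V⁻¹ : E n ≃ₜ E n) x with hy
    set z := (σ t)⁻¹ • y with hz
    have hne := (hσpos t).ne'
    have e1 : HasDerivAt (fun s : ℝ => (σ s)⁻¹ • y) ((-(deriv σ t) / (σ t) ^ 2) • y) t :=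
      ((hσd.1 t).hasDerivAt.inv hne).smul_const y
    have e2 : HasDerivAt (fun s : ℝ => u ((σ s)⁻¹ • y))
        (fderiv ℝ u z ((-(deriv σ t) / (σ t) ^ 2) • y)) t :=
      (du z).hasFDerivAt.comp_hasDerivAt t e1
    have e3 := (hσd.1 t).hasDerivAt.smul e2
    have e4 : XH (fun x => (deriv σ t * σ t) * g ((σ t)⁻¹ • x)) (σ t • u z) =
        deriv σ t • (u z - fderiv ℝ u z z) := by
      have f1 : (fun x => (deriv σ t * σ t) * g ((σ t)⁻¹ • x)) =
          fun x => (deriv σ t / σ t) * (fun x => σ t ^ 2 * g ((σ t)⁻¹ • x)) x := by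
        funext x
        simp only
        field_simp
      have dg : Differentiable ℝ g := sg.differentiable (by simp)
      have f2 : Differentiable ℝ (fun x => σ t ^ 2 * g ((σ t)⁻¹ • x)) := by
        have : Smo (fun x : E n => σ t ^ 2 * g ((σ t)⁻¹ • x)) :=
          contDiff_const.mul (sg.comp (contDiff_id.const_smul _))
        exact this.differentiable (by simp)
      rw [f1, XH_smul _ f2, Pool.Agent.Y419.HB.XH_scale g dg _ hne, inv_smul_smul₀ hne, hg,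
        smul_smul]
      congr 1
      field_simp
    change HasDerivAt (fun s : ℝ => σ s • u ((σ s)⁻¹ • y))
      (XH (fun x => (deriv σ t * σ t) * g ((σ t)⁻¹ • x)) (σ t • u z)) t
    rw [e4]
    have e5 : deriv σ t • (u z - fderiv ℝ u z z) =
        σ t • (fderiv ℝ u z ((-(deriv σ t) / (σ t) ^ 2) • y)) + deriv σ t • u z := by
      have f1 : (-(deriv σ t) / (σ t) ^ 2) • y = (-(deriv σ t) / σ t) • z := by
        rw [hz, smul_smul]
        congr 1
        field_simp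
      have f3 := (fderiv ℝ (u : E n → E n) z).map_smul (-(deriv σ t) / σ t) z
      have f2 : σ t * (-(deriv σ t) / σ t) = -deriv σ t := by
        field_simp
      rw [f1, f3, smul_smul, f2, neg_smul, smul_sub]
      abel
    rw [e5]
    exact e3
  · have e1 : σ 1 = 1 := by
      simp only [hσ]
      rw [st_one le_rfl, mul_one]
      ring
    show u ((V⁻¹ : E n ≃ₜ E n) x) = σ 1 • u ((σ 1)⁻¹ • (V⁻¹ : E n ≃ₜ E n) x)
    rw [e1, inv_one, one_smul, one_smul]

theorem dil_mul {a b : ℝ} (ha : 0 < a) (hb : 0 < b) :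
    (dil a ha : E n ≃ₜ E n) * dil b hb = dil (a * b) (mul_pos ha hb) :=
  Homeomorph.ext fun x => by
    rw [mul_apply, dil_apply, dil_apply, dil_apply, smul_smul]

theorem dil_inv {a : ℝ} (ha : 0 < a) :
    (dil a ha : E n ≃ₜ E n)⁻¹ = dil a⁻¹ (inv_pos.2 ha) :=
  Homeomorph.ext fun _ => rfl

theorem dil_one' (h : (0 : ℝ) < 1) : (dil 1 h : E n ≃ₜ E n) = 1 :=
  Homeomorph.ext fun x => by
    rw [dil_apply, one_smul]
    rfl

theorem dil_congr {a b : ℝ} (ha : 0 < a) (h : a = b) :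
    (dil a ha : E n ≃ₜ E n) = dil b (h ▸ ha) := by
  subst h
  rfl

/-- expansions of Hamiltonian diffeomorphisms with support in a smaller ball -/
theorem ham_expand {a t : ℝ} (ha : 0 < a) (hat : a < t) (ht1 : t ≤ 1) {u : E n ≃ₜ E n}
    (hu : IsHam u) (hs : ∀ x, a ^ 2 < Q x → u x = x) :
    IsHam ((dil t (ha.trans hat))⁻¹ * u * dil t (ha.trans hat)) := by
  have ht : 0 < t := ha.trans hat
  have ha1 : a ≤ 1 := hat.le.trans ht1
  set V : E n ≃ₜ E n := dil a ha * u * (dil a ha)⁻¹ with hV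
  set D : E n ≃ₜ E n := dil t ht with hD
  have e1 : D⁻¹ * u * D = (D⁻¹ * (u * V⁻¹) * D) * (D⁻¹ * V * D) := by group
  rw [e1]
  have h1 : IsHam (D⁻¹ * (u * V⁻¹) * D) := by
    have := hamIn_dil (inv_pos.2 ht) (hamIn_comm ha hat ha1 hu hs)
    rw [inv_mul_cancel₀ ht.ne', hamIn_one] at this
    have e2 : dil t⁻¹ (inv_pos.2 ht) * (u * V⁻¹) * (dil t⁻¹ (inv_pos.2 ht))⁻¹ =
        D⁻¹ * (u * V⁻¹) * D := by
      rw [← dil_inv ht, inv_inv]
    rw [← e2]
    exact this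
  have h2 : IsHam (D⁻¹ * V * D) := by
    have hat' : 0 < a / t := by positivity
    have := Pool.Agent.Y419.HB.dil_ham n (a / t) hat' ((div_le_one ht).2 hat.le) u hu
    have e2 : dil (a / t) hat' * u * (dil (a / t) hat')⁻¹ = D⁻¹ * V * D := by
      have e3 : (dil (a / t) hat' : E n ≃ₜ E n) = D⁻¹ * dil a ha := by
        refine Homeomorph.ext fun x => ?_
        rw [mul_apply, dil_inv_apply, dil_apply, dil_apply, smul_smul, div_eq_inv_mul]
      rw [e3, hV]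
      group
    rw [← e2]
    exact this
  exact Pool.Agent.Y907.HB.mul n _ _ h1 h2

/-- every Hamiltonian homeomorphism is the conjugate by a dilation of ratio less than one of a
Hamiltonian homeomorphism -/
theorem exists_expand {φ : E n ≃ₜ E n} (hφ : φ ∈ hamBar n) :
    ∃ (t : ℝ) (ht : 0 < t), t < 1 ∧ (dil t ht)⁻¹ * φ * dil t ht ∈ hamBar n := by
  obtain ⟨K, hK, hK1, hK2, u, hu1, hu2, hu3⟩ := hφ
  have hU := Pool.Agent.Y309.HB.uc
  obtain ⟨a, ha, ha1, hKa⟩ : ∃ a : ℝ, 0 < a ∧ a < 1 ∧ ∀ x ∈ K, Q x ≤ a ^ 2 := by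
    rcases K.eq_empty_or_nonempty with h | h
    · exact ⟨1 / 2, by norm_num, by norm_num, fun x hx => by rw [h] at hx; exact absurd hx (by simp)⟩
    · obtain ⟨p, hp, hpm⟩ := hK.exists_isMaxOn h Q_cont.continuousOn
      have h1 : Q p < 1 := hK1 hp
      have h0 := Q_nonneg p
      refine ⟨√((Q p + 1) / 2), by positivity, ?_, fun x hx => ?_⟩
      · rw [Real.sqrt_lt' one_pos]
        linarith
      · rw [Real.sq_sqrt (by linarith)]
        have : Q x ≤ Q p := hpm hx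
        linarith
  obtain ⟨t, hat, ht1⟩ := exists_between ha1
  have ht : 0 < t := ha.trans hat
  refine ⟨t, ht, ht1, ?_⟩
  have hs : ∀ w : E n ≃ₜ E n, (∀ x, x ∉ K → w x = x) → ∀ x, a ^ 2 < Q x → w x = x :=
    fun w hw x hx => hw x fun hxK => absurd (hKa x hxK) (not_le.2 hx)
  have hfix : ∀ w : E n ≃ₜ E n, (∀ x, x ∉ K → w x = x) →
      ∀ x, x ∉ {x : E n | Q x ≤ (a / t) ^ 2} →
      ((dil t ht)⁻¹ * w * dil t ht : E n ≃ₜ E n) x = x := by
    intro w hw x hx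
    rw [mul_apply, mul_apply, dil_apply, hs w hw, dil_inv_apply, smul_smul,
      inv_mul_cancel₀ ht.ne', one_smul]
    rw [Q_smul]
    have h1 : (a / t) ^ 2 < Q x := not_le.1 hx
    rw [div_pow, div_lt_iff₀ (by positivity)] at h1
    linarith
  refine ⟨{x : E n | Q x ≤ (a / t) ^ 2}, Q_compact _, fun x hx => ?_, hfix φ hK2,
    fun k => (dil t ht)⁻¹ * u k * dil t ht, fun k => hfix _ (hu1 k),
    fun k => ham_expand ha hat ht1.le (hu2 k) (hs _ (hu1 k)), ?_⟩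
  · have h1 : Q x ≤ (a / t) ^ 2 := hx
    have h2 : (a / t) ^ 2 < 1 := by
      rw [div_pow, div_lt_one (by positivity)]
      exact pow_lt_pow_left₀ hat ha.le two_ne_zero
    exact lt_of_le_of_lt h1 h2
  · have h1 := (hU n).2.2.2.1 t ht
    exact ((hU n).1 _ _ _ _ ((hU n).1 _ _ _ _ ((hU n).2.1 _ _ h1) (uconv_of hU hK hK2 hu3)) h1).1

end Pool.Agent.Q175.HM
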