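import Pool.Agent.Q175.HM.Abs

/-!
The group of Hamiltonian homeomorphisms of the ball and its dilations.
-/

set_option autoImplicit false

open Set Filter Topology Function Cardinal

namespace Pool.Agent.Q175.HM

open Pool.Agent.Y453.HB

variable {n : ℕ}

theorem mem_HamBar {φ : E n ≃ₜ E n} : φ ∈ HamBar n ↔ φ ∈ hamBar n :=
  mem_iff Pool.Agent.Y907.HB.mul Pool.Agent.Y510.HB.inv Pool.Agent.Y309.HB.uc

/-- conjugation by dilations -/
noncomputable def dd (n : ℕ) (s : ℝ) : HamBar n →* HamBar n := by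
  classical
  exact if h : 0 < s ∧ s ≤ 1 then
    { toFun := fun φ => ⟨dil s h.1 * (φ : E n ≃ₜ E n) * (dil s h.1)⁻¹, mem_HamBar.2
        (dil_mem Pool.Agent.Y419.HB.dil_ham Pool.Agent.Y309.HB.uc h.1 h.2 (mem_HamBar.1 φ.2))⟩
      map_one' := Subtype.ext (by
        change dil s h.1 * 1 * (dil s h.1)⁻¹ = 1
        group)
      map_mul' := fun φ ψ => Subtype.ext (by
        change dil s h.1 * ((φ : E n ≃ₜ E n) * (ψ : E n ≃ₜ E n)) * (dil s h.1)⁻¹ =
          (dil s h.1 * (φ : E n ≃ₜ E n) * (dil s h.1)⁻¹) *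
            (dil s h.1 * (ψ : E n ≃ₜ E n) * (dil s h.1)⁻¹)
        group) }
  else 1

theorem dd_val {s : ℝ} (hs : 0 < s) (hs1 : s ≤ 1) (φ : HamBar n) :
    ((dd n s φ : HamBar n) : E n ≃ₜ E n) = dil s hs * (φ : E n ≃ₜ E n) * (dil s hs)⁻¹ := by
  unfold dd
  rw [dif_pos ⟨hs, hs1⟩]
  rfl

theorem dd_isDilate {s : ℝ} (hs : 0 < s) (hs1 : s ≤ 1) (φ : HamBar n) :
    IsDilate s φ (dd n s φ) := by
  intro x
  rw [dd_val hs hs1, mul_apply, mul_apply, dil_inv_apply, dil_apply, smul_smul,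
    inv_mul_cancel₀ hs.ne', one_smul]

theorem eq_of_isDilate {s : ℝ} (hs : 0 < s) {φ φ' φ'' : HamBar n} (h : IsDilate s φ φ')
    (h' : IsDilate s φ φ'') : φ' = φ'' := by
  apply Subtype.ext
  refine Homeomorph.ext fun x => ?_
  have h1 := h (s⁻¹ • x)
  have h2 := h' (s⁻¹ • x)
  rw [smul_smul, mul_inv_cancel₀ hs.ne', one_smul] at h1 h2
  rw [h1, h2]

theorem dd_eq {s : ℝ} (hs : 0 < s) (hs1 : s ≤ 1) {φ φ' : HamBar n} (h : IsDilate s φ φ') :
    dd n s φ = φ' := eq_of_isDilate hs (dd_isDilate hs hs1 φ) h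

theorem dd_mul {s t : ℝ} (hs : 0 < s) (hs1 : s ≤ 1) (ht : 0 < t) (ht1 : t ≤ 1)
    (φ : HamBar n) : dd n s (dd n t φ) = dd n (s * t) φ := by
  apply Subtype.ext
  rw [dd_val hs hs1, dd_val ht ht1, dd_val (mul_pos hs ht) (mul_le_one₀ hs1 ht.le ht1),
    ← dil_mul hs ht]
  group

theorem dd_union (φ : HamBar n) : ∃ t : ℝ, 0 < t ∧ t < 1 ∧ ∃ h, φ = dd n t h := by
  obtain ⟨t, ht, ht1, h⟩ := exists_expand (mem_HamBar.1 φ.2)
  refine ⟨t, ht, ht1, ⟨_, mem_HamBar.2 h⟩, ?_⟩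
  apply Subtype.ext
  rw [dd_val ht ht1.le]
  group

/-- displacement of a small ball -/
theorem dd_disp (hn : 0 < n) : ∃ r : ℝ, 0 < r ∧ r < 1 ∧ ∃ R : HamBar n, ∀ g h : HamBar n,
    Commute (dd n r g) (R * dd n r h * R⁻¹) := by
  have hr : (0 : ℝ) < 1 / 4 := by norm_num
  have hr1 : (1 / 4 : ℝ) ≤ 1 := by norm_num
  obtain ⟨R, a, hR, ha, hRa⟩ := Pool.Agent.Y945.HB.rot tri n hn (1 / 4) (5 / 8) hr (by norm_num)
    (by norm_num)
  have hRm : R ∈ HamBar n := mem_HamBar.2 (ham_mem hR)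
  refine ⟨1 / 4, hr, by norm_num, ⟨R, hRm⟩, fun g h => ?_⟩
  -- supports
  have hsupp : ∀ (g : HamBar n) (x : E n), (1 / 4) ^ 2 < Q x →
      ((dd n (1 / 4) g : HamBar n) : E n ≃ₜ E n) x = x := by
    intro g x hx
    obtain ⟨K, -, hK1, hK2, -⟩ := mem_HamBar.1 g.2
    rw [dd_val hr hr1, mul_apply, mul_apply, dil_inv_apply, dil_apply, hK2, smul_smul,
      mul_inv_cancel₀ hr.ne', one_smul]
    intro hc
    have h1 : Q ((1 / 4 : ℝ)⁻¹ • x) < 1 := hK1 hc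
    rw [Q_smul] at h1
    norm_num at h1 hx
    linarith
  have hfixg : ∀ (g : HamBar n) (x : E n), Q x ≤ (1 / 4) ^ 2 →
      Q (((dd n (1 / 4) g : HamBar n) : E n ≃ₜ E n) x) ≤ (1 / 4) ^ 2 := by
    intro g x hx
    by_contra hc
    push Not at hc
    have h1 := hsupp g _ hc
    have h2 := ((dd n (1 / 4) g : HamBar n) : E n ≃ₜ E n).injective h1
    rw [h2] at hc
    linarith
  have hsupp' : ∀ (h : HamBar n) (x : E n), Q x ≤ (1 / 4) ^ 2 →
      ((R * ((dd n (1 / 4) h : HamBar n) : E n ≃ₜ E n) * R⁻¹ : E n ≃ₜ E n)) x = x := by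
    intro h x hx
    rw [mul_apply, mul_apply, hsupp h, apply_inv_self]
    by_contra hc
    push Not at hc
    have h2 := hRa _ hc
    rw [apply_inv_self] at h2
    have h3 : x + R⁻¹ x = a := eq_sub_iff_add_eq.1 h2
    have h5 := sqrtQ_add x (R⁻¹ x)
    have h6 : √(Q x) ≤ 1 / 4 := by
      rw [Real.sqrt_le_left (by norm_num)]
      exact hx
    have h7 : √(Q (R⁻¹ x)) ≤ 1 / 4 := by
      rw [Real.sqrt_le_left (by norm_num)]
      exact hc
    rw [h3, ha, Real.sqrt_sq (by norm_num)] at h5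
    linarith
  apply Subtype.ext
  refine Homeomorph.ext fun x => ?_
  change ((dd n (1 / 4) g : HamBar n) : E n ≃ₜ E n)
      ((R * ((dd n (1 / 4) h : HamBar n) : E n ≃ₜ E n) * R⁻¹ : E n ≃ₜ E n) x) =
    (R * ((dd n (1 / 4) h : HamBar n) : E n ≃ₜ E n) * R⁻¹ : E n ≃ₜ E n)
      (((dd n (1 / 4) g : HamBar n) : E n ≃ₜ E n) x)
  rcases le_or_gt (Q x) ((1 / 4) ^ 2) with hx | hx
  · rw [hsupp' h x hx, hsupp' h _ (hfixg g x hx)]
  · rw [hsupp g x hx]
    apply hsupp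
    by_contra hc
    push Not at hc
    have h1 := hsupp' h _ hc
    have h2 := (R * ((dd n (1 / 4) h : HamBar n) : E n ≃ₜ E n) * R⁻¹ : E n ≃ₜ E n).injective h1
    rw [h2] at hc
    linarith

theorem dd_key (hn : 0 < n) (A : Type) [AddCommGroup A] (c : HamBar n → A)
    (hconj : ∀ φ ψ, c (ψ * φ * ψ⁻¹) = c φ)
    (hcomm : ∀ φ ψ, φ * ψ = ψ * φ → c (φ * ψ) = c φ + c ψ) (s : ℝ) (hs : 0 < s) (hs1 : s < 1)
    (r : ℝ) (hr : 0 < r) (hrs : r < (1 - s) / 2) (g : HamBar n) :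
    ∃ Φ, c (dd n r g) = c Φ - c (dd n s Φ) := by
  have hr1 : r ≤ 1 := by linarith
  let D : AddMonoid.End (ℕ → A) :=
    { toFun := fun a k => a (k + 1)
      map_zero' := rfl
      map_add' := fun _ _ => rfl }
  let C : HamBar n → (ℕ → A) := fun φ k => c (dd n (s ^ k) φ)
  have hk0 : ∀ k : ℕ, 0 < s ^ k := fun k => pow_pos hs k
  have hk1 : ∀ k : ℕ, s ^ k ≤ 1 := fun k => pow_le_one₀ hs.le hs1.le
  obtain ⟨Φ, hΦ⟩ := equivariant hn (ℕ → A) D C
    (fun φ ψ => by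
      funext k
      simp only [C, map_mul, map_inv]
      exact hconj _ _)
    (fun φ ψ h => by
      funext k
      simp only [C, map_mul, Pi.add_apply]
      refine hcomm _ _ ?_
      rw [← map_mul, ← map_mul, h]) s hs
    (fun φ φ' h => by
      funext k
      change c (dd n (s ^ k) φ') = c (dd n (s ^ (k + 1)) φ)
      rw [← dd_eq hs hs1.le h, dd_mul (hk0 k) (hk1 k) hs hs1.le, pow_succ])
    (1 - Polynomial.X) (by simp) r hr hrs g (dd n r g) (dd_isDilate hr hr1 g)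
  have h1 := congrFun hΦ 0
  rw [map_sub, map_one, Polynomial.aeval_X] at h1
  change c (dd n (s ^ 0) (dd n r g)) = c (dd n (s ^ 0) Φ) - c (dd n (s ^ (0 + 1)) Φ) at h1
  have h2 : ∀ φ : HamBar n, dd n 1 φ = φ := fun φ => dd_eq one_pos le_rfl fun x => by
    rw [one_smul, one_smul]
  rw [pow_zero, h2, h2, zero_add, pow_one] at h1
  exact ⟨Φ, h1⟩

/-- the dilations of the group of Hamiltonian homeomorphisms of the ball -/
noncomputable def hamDS (hn : 0 < n) : DS (HamBar n) where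
  d := dd n
  mul := fun _ _ hs hs1 ht ht1 g => dd_mul hs hs1 ht ht1 g
  union := dd_union
  disp := dd_disp hn
  key := fun A _ c h1 h2 s hs hs1 r hr hrs g => dd_key hn A c h1 h2 s hs hs1 r hr hrs g

end Pool.Agent.Q175.HM
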