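import Pool.Agent.Q175.HM.Sm

/-!
Every Hamiltonian homeomorphism of the ball is the conjugate by a dilation of ratio `< 1` of a
Hamiltonian homeomorphism of the ball.
-/

set_option autoImplicit false

open Set Filter Topology Function

namespace Pool.Agent.Q175.HM

open Pool.Agent.Y453.HB

variable {n : ℕ}

/-- the time change -/
noncomputable def st (t : ℝ) : ℝ := Real.smoothTransition t

theorem st_smo : Smo st := Real.smoothTransition.contDiff

theorem st_zero {t : ℝ} (h : t ≤ 0) : st t = 0 := Real.smoothTransition.zero_of_nonpos h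

theorem st_one {t : ℝ} (h : 1 ≤ t) : st t = 1 := Real.smoothTransition.one_of_one_le h

theorem dst_zero {t : ℝ} (h : t ∉ Icc (0 : ℝ) 1) : deriv st t = 0 := by
  rw [mem_Icc, not_and_or, not_le, not_le] at h
  rcases h with h | h
  · have : st =ᶠ[𝓝 t] fun _ => 0 := by
      filter_upwards [Iio_mem_nhds h] with s hs
      exact st_zero (le_of_lt hs)
    rw [this.deriv_eq]
    simp
  · have : st =ᶠ[𝓝 t] fun _ => 1 := by
      filter_upwards [Ioi_mem_nhds h] with s hs
      exact st_one (le_of_lt hs)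
    rw [this.deriv_eq]
    simp

theorem XH_smul (h : E n → ℝ) (hh : Differentiable ℝ h) (c : ℝ) (p : E n) :
    XH (fun x => c * h x) p = c • XH h p := by
  have := Pool.Agent.Y907.HB.XH_lin (h := h) (h' := h) (p := p) c 0 (hh p) (hh p)
  simpa using this

/-- Hamiltonian diffeomorphisms are smooth and symplectic -/
theorem ham_smooth {u : E n ≃ₜ E n} (hu : IsHam u) : Smo (u : E n → E n) ∧
    ∀ x a b, om (fderiv ℝ u x a) (fderiv ℝ u x b) = om a b := by
  obtain ⟨H, hH, ⟨K, hK, -, hKz⟩, ψ, h0, hd, h1⟩ := hu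
  have hst := contDiff_infty_iff_deriv.1 st_smo
  set H' : ℝ → E n → ℝ := fun t x => deriv st t * H (st t) x with hH'
  set ψ' : ℝ → E n → E n := fun t x => ψ (st t) x with hψ'
  have s1 : Smo (uncurry H') := by
    have e1 : Smo (fun p : ℝ × E n => H (st p.1) p.2) :=
      hH.comp ((st_smo.comp contDiff_fst).prodMk contDiff_snd)
    exact (hst.2.comp contDiff_fst).mul e1
  have s2 : HasCompactSupport (uncurry H') := by
    refine HasCompactSupport.intro (isCompact_Icc.prod hK) (K := Icc (0 : ℝ) 1 ×ˢ K)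
      fun p hp => ?_
    rw [mem_prod, not_and_or] at hp
    change deriv st p.1 * H (st p.1) p.2 = 0
    rcases hp with hp | hp
    · rw [dst_zero hp, zero_mul]
    · rw [hKz _ _ hp, mul_zero]
  have s3 : ∀ x, ψ' 0 x = x := fun x => by
    change ψ (st 0) x = x
    rw [st_zero le_rfl, h0]
  have s4 : ∀ (t : ℝ) (x : E n), HasDerivAt (fun s : ℝ => ψ' s x) (XH (H' t) (ψ' t x)) t := by
    intro t x
    have e1 : XH (H' t) (ψ' t x) = deriv st t • XH (H (st t)) (ψ (st t) x) :=
      XH_smul _ ((smo_slice hH _).differentiable (by simp)) _ _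
    rw [e1]
    exact (hd (st t) x).scomp t (hst.1 t).hasDerivAt
  have s5 := smo_flow s1 s2 s3 s4
  have e : (u : E n → E n) = ψ' 1 := by
    funext x
    change u x = ψ (st 1) x
    rw [st_one le_rfl, h1]
  rw [e]
  exact ⟨s5.comp (contDiff_const.prodMk contDiff_id), fun x a b => om_flow s1 s3 s4 s5 1 x a b⟩

/-! ### the primitive -/

/-- Euclidean scalar product -/
def ip (a b : E n) : ℝ := ∑ i, (a.1 i * b.1 i + a.2 i * b.2 i)

theorem Q_comb (a b : E n) (c d : ℝ) :
    Q (c • a + d • b) = c ^ 2 * Q a + d ^ 2 * Q b + 2 * c * d * ip a b := by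
  unfold Q ip
  rw [Finset.mul_sum, Finset.mul_sum, Finset.mul_sum, ← Finset.sum_add_distrib,
    ← Finset.sum_add_distrib]
  refine Finset.sum_congr rfl fun i _ => ?_
  simp only [Prod.fst_add, Prod.snd_add, Pi.add_apply, Prod.smul_fst, Prod.smul_snd,
    Pi.smul_apply, smul_eq_mul]
  ring

/-- the complex structure -/
def Jc (a : E n) : E n := (fun i => -a.2 i, fun i => a.1 i)

theorem Q_Jc (a : E n) : Q (Jc a) = Q a := by
  unfold Q Jc
  refine Finset.sum_congr rfl fun i _ => ?_
  ring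

theorem ip_Jc (a : E n) : ip a (Jc a) = 0 := by
  unfold ip Jc
  refine Finset.sum_eq_zero fun i _ => ?_
  ring

theorem ip_neg (a b : E n) : ip a (-b) = -ip a b := by
  unfold ip
  rw [← Finset.sum_neg_distrib]
  refine Finset.sum_congr rfl fun i _ => ?_
  simp only [Prod.fst_neg, Prod.snd_neg, Pi.neg_apply]
  ring

theorem ip_comm (a b : E n) : ip a b = ip b a := by
  unfold ip
  refine Finset.sum_congr rfl fun i _ => ?_
  ring

theorem Q_neg (a : E n) : Q (-a) = Q a := by
  unfold Q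
  refine Finset.sum_congr rfl fun i _ => ?_
  simp only [Prod.fst_neg, Prod.snd_neg, Pi.neg_apply]
  ring

theorem out_const {g : E n → ℝ} {W : E n → (E n →L[ℝ] ℝ)} (hg : ∀ x, HasFDerivAt g (W x) x)
    {c : ℝ} (hc : 0 ≤ c) (hW : ∀ x, c < Q x → W x = 0) (x y : E n) (hx : c < Q x) (hy : c < Q y) :
    g x = g y := by
  have hseg : ∀ x y : E n, (∀ s ∈ Icc (0 : ℝ) 1, c < Q ((1 - s) • x + s • y)) → g x = g y := by
    intro x y h
    have hd : ∀ s ∈ Icc (0 : ℝ) 1, HasDerivWithinAt (fun s : ℝ => g ((1 - s) • x + s • y)) 0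
        (Icc (0 : ℝ) 1) s := by
      intro s hs
      have e1 : HasDerivAt (fun s : ℝ => (1 - s) • x + s • y) (-x + y) s := by
        have a1 : HasDerivAt (fun s : ℝ => (1 - s) • x) ((-1 : ℝ) • x) s :=
          ((hasDerivAt_id s).const_sub 1).smul_const x
        have a2 : HasDerivAt (fun s : ℝ => s • y) ((1 : ℝ) • y) s := (hasDerivAt_id s).smul_const y
        have := a1.add a2
        rw [neg_one_smul, one_smul] at this
        exact this
      have e2 := (hg ((1 - s) • x + s • y)).comp_hasDerivAt s e1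
      rw [hW _ (h s hs)] at e2
      exact e2.hasDerivWithinAt
    have h6 := (convex_Icc (0 : ℝ) 1).norm_image_sub_le_of_norm_hasDerivWithin_le
      (f := fun s : ℝ => g ((1 - s) • x + s • y)) (f' := fun _ => 0) (C := 0) hd (by simp)
      (right_mem_Icc.2 zero_le_one) (left_mem_Icc.2 zero_le_one)
    simp only [zero_mul, norm_le_zero_iff, sub_eq_zero, sub_zero, one_smul, zero_smul, add_zero,
      sub_self, zero_add] at h6
    exact h6
  have hdbl : ∀ x : E n, c < Q x → g x = g ((2 : ℝ) • x) := by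
    intro x hx
    refine hseg _ _ fun s hs => ?_
    have e : (1 - s) • x + s • (2 : ℝ) • x = (1 + s) • x := by
      rw [smul_smul, ← add_smul]
      congr 1
      ring
    rw [e, Q_smul]
    have h2 : (1 : ℝ) ≤ (1 + s) ^ 2 := by nlinarith [hs.1]
    exact lt_of_lt_of_le hx (le_mul_of_one_le_left (Q_nonneg x) h2)
  have hpos : ∀ x y : E n, c < Q x → c < Q y → 0 ≤ ip x y → g x = g y := by
    intro x y hx hy hxy
    rw [hdbl x hx, hdbl y hy]
    refine hseg _ _ fun s hs => ?_
    rw [Q_comb, Q_smul, Q_smul]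
    have e : ip ((2 : ℝ) • x) ((2 : ℝ) • y) = 4 * ip x y := by
      unfold ip
      rw [Finset.mul_sum]
      refine Finset.sum_congr rfl fun i _ => ?_
      simp only [Prod.smul_fst, Prod.smul_snd, Pi.smul_apply, smul_eq_mul]
      ring
    rw [e]
    obtain ⟨h0, h1⟩ := hs
    have a1 : 0 ≤ 2 * (1 - s) * s * (4 * ip x y) := by
      have : 0 ≤ 1 - s := by linarith
      positivity
    have a2 : (1 - s) ^ 2 * c ≤ (1 - s) ^ 2 * Q x := by gcongr
    have a3 : s ^ 2 * c ≤ s ^ 2 * Q y := by gcongr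
    have a4 : 1 / 2 * Q x ≤ (1 - s) ^ 2 * Q x + s ^ 2 * Q x := by
      have := Q_nonneg x
      nlinarith [sq_nonneg (1 - 2 * s)]
    rcases le_total (Q x) (Q y) with h | h
    · have a5 : s ^ 2 * Q x ≤ s ^ 2 * Q y := by gcongr
      nlinarith
    · have a5 : (1 - s) ^ 2 * Q y ≤ (1 - s) ^ 2 * Q x := by gcongr
      have a6 : 1 / 2 * Q y ≤ (1 - s) ^ 2 * Q y + s ^ 2 * Q y := by
        have := Q_nonneg y
        nlinarith [sq_nonneg (1 - 2 * s)]
      nlinarith
  rcases le_total 0 (ip (Jc x) y) with h | h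
  · rw [hpos x (Jc x) hx (by rw [Q_Jc]; exact hx) (ip_Jc x).ge,
      hpos (Jc x) y (by rw [Q_Jc]; exact hx) hy h]
  · have h' : 0 ≤ ip (-Jc x) y := by
      rw [ip_comm, ip_neg, ip_comm]
      linarith
    rw [hpos x (-Jc x) hx (by rw [Q_neg, Q_Jc]; exact hx) (by rw [ip_neg, ip_Jc, neg_zero]),
      hpos (-Jc x) y (by rw [Q_neg, Q_Jc]; exact hx) hy h']

/-- the Hamiltonian of the isotopy by conjugation with dilations -/
theorem prim {u : E n ≃ₜ E n} (hu : IsHam u) {c : ℝ} (hc : 0 ≤ c)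
    (hs : ∀ x, c < Q x → u x = x) :
    ∃ g : E n → ℝ, Smo g ∧ (∀ x, c < Q x → g x = 0) ∧
      ∀ z, XH g (u z) = u z - fderiv ℝ u z z := by
  obtain ⟨su, so⟩ := ham_smooth hu
  obtain ⟨sv, -⟩ := ham_smooth ((Pool.Agent.Y510.HB.inv n).2 u hu)
  have s1 : Smo (fderiv ℝ (u : E n → E n)) := su.fderiv_right (by simp)
  have du : Differentiable ℝ (u : E n → E n) := su.differentiable (by simp)
  have dv : Differentiable ℝ ((u⁻¹ : E n ≃ₜ E n) : E n → E n) := sv.differentiable (by simp)
  set Y : E n → E n := fun w => w - fderiv ℝ u ((u⁻¹ : E n ≃ₜ E n) w) ((u⁻¹ : E n ≃ₜ E n) w)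
    with hY
  have sY : Smo Y := contDiff_id.sub ((s1.comp sv).clm_apply sv)
  have hYu : ∀ z, Y (u z) = u z - fderiv ℝ u z z := fun z => by
    simp only [hY]
    rw [inv_apply_self]
  have hop : IsOpen {x : E n | c < Q x} := isOpen_lt continuous_const Q_cont
  have hYout : ∀ x, c < Q x → Y x = 0 := by
    intro x hx
    have e1 : Y x = Y (u x) := by rw [hs x hx]
    rw [e1, hYu, hs x hx]
    have e2 : (u : E n → E n) =ᶠ[𝓝 x] id := by
      filter_upwards [hop.mem_nhds hx] with y hy using hs y hy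
    rw [e2.fderiv_eq, fderiv_id]
    simp
  -- derivative of Y
  have dY : Differentiable ℝ Y := sY.differentiable (by simp)
  have hD1 : ∀ z a, fderiv ℝ Y (u z) (fderiv ℝ u z a) = -(fderiv ℝ (fderiv ℝ u) z z a) := by
    intro z a
    have e1 : HasFDerivAt (fun z => Y (u z)) ((fderiv ℝ Y (u z)).comp (fderiv ℝ u z)) z :=
      HasFDerivAt.comp z (dY (u z)).hasFDerivAt (du z).hasFDerivAt
    have e2 : HasFDerivAt (fun z => u z - fderiv ℝ u z z)
        (fderiv ℝ u z - ((fderiv ℝ u z).comp (ContinuousLinearMap.id ℝ (E n)) +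
          (fderiv ℝ (fderiv ℝ u) z).flip z)) z :=
      (du z).hasFDerivAt.sub (((s1.differentiable (by simp)) z).hasFDerivAt.clm_apply
        (hasFDerivAt_id z))
    have e3 : (fun z => Y (u z)) = fun z => u z - fderiv ℝ u z z := funext hYu
    rw [e3] at e1
    have e4 := congrArg (fun T => T a) (e1.unique e2)
    have hsy : IsSymmSndFDerivAt ℝ (u : E n → E n) z := by
      refine su.contDiffAt.isSymmSndFDerivAt ?_
      rw [minSmoothness_of_isRCLikeNormedField]
      exact WithTop.coe_le_coe.2 le_top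
    change fderiv ℝ Y (u z) (fderiv ℝ u z a) = fderiv ℝ u z a - (fderiv ℝ u z a +
      fderiv ℝ (fderiv ℝ u) z a z) at e4
    rw [e4, hsy a z]
    abel
  have hD2 : ∀ z a b, om (fderiv ℝ (fderiv ℝ u) z z a) (fderiv ℝ u z b) +
      om (fderiv ℝ u z a) (fderiv ℝ (fderiv ℝ u) z z b) = 0 := by
    intro z a b
    have e0 : ∀ a, HasFDerivAt (fun w => fderiv ℝ u w a) ((fderiv ℝ (fderiv ℝ u) z).flip a) z := by
      intro a
      have := ((s1.differentiable (by simp)) z).hasFDerivAt.clm_apply (hasFDerivAt_const a z)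
      simpa using this
    have e1 := (((omL n).hasFDerivAt.comp z (e0 a))).clm_apply (e0 b)
    have e2 : (fun w => (omL n ∘ fun w => fderiv ℝ u w a) w (fderiv ℝ u w b)) =
        fun _ => om a b := by
      funext w
      exact so w a b
    rw [e2] at e1
    have e3 := congrArg (fun T => T z) (e1.unique (hasFDerivAt_const (om a b) z))
    have e4 : om (fderiv ℝ u z a) (fderiv ℝ (fderiv ℝ u) z z b) +
        om (fderiv ℝ (fderiv ℝ u) z z a) (fderiv ℝ u z b) = 0 := e3
    linarith
  have hsym : ∀ w a b, om (fderiv ℝ Y w a) b + om a (fderiv ℝ Y w b) = 0 := by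
    intro w a b
    set z := (u⁻¹ : E n ≃ₜ E n) w with hz
    have hw : w = u z := (apply_inv_self u w).symm
    have hsurj : ∀ a, ∃ a', fderiv ℝ u z a' = a := by
      intro a
      have e1 : HasFDerivAt (fun w => u ((u⁻¹ : E n ≃ₜ E n) w))
          ((fderiv ℝ u z).comp (fderiv ℝ ((u⁻¹ : E n ≃ₜ E n) : E n → E n) w)) w :=
        HasFDerivAt.comp w (du z).hasFDerivAt (dv w).hasFDerivAt
      have e2 : (fun w => u ((u⁻¹ : E n ≃ₜ E n) w)) = id := funext fun w => apply_inv_self u w
      rw [e2] at e1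
      have e3 := congrArg (fun T => T a) (e1.unique (hasFDerivAt_id w))
      exact ⟨_, e3⟩
    obtain ⟨a', rfl⟩ := hsurj a
    obtain ⟨b', rfl⟩ := hsurj b
    rw [hw, hD1, hD1]
    have := hD2 z a' b'
    have e5 : ∀ p q : E n, om (-p) q = -om p q := fun p q => by
      have := (omL n).map_neg p
      have := congrArg (fun T => T q) this
      exact this
    have e6 : ∀ p q : E n, om p (-q) = -om p q := fun p q => (omL n p).map_neg q
    rw [e5, e6]
    linarith
  set W : E n → (E n →L[ℝ] ℝ) := fun w => omL n (Y w) with hW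
  have sW : Smo W := (omL n).contDiff.comp sY
  have hfW : ∀ w a b, fderiv ℝ W w a b = om (fderiv ℝ Y w a) b := by
    intro w a b
    have e1 : HasFDerivAt W ((omL n).comp (fderiv ℝ Y w)) w :=
      (omL n).hasFDerivAt.comp w (dY w).hasFDerivAt
    rw [e1.fderiv]
    rfl
  obtain ⟨g0, hg0⟩ := Convex.exists_forall_hasFDerivAt_of_fderiv_symmetric convex_univ isOpen_univ
    (ω := W) (sW.differentiable (by simp)).differentiableOn (fun w _ a b => by
      rw [hfW, hfW, om_swap (fderiv ℝ Y w b)]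
      linarith [hsym w a b])
  have hg0' : ∀ x, HasFDerivAt g0 (W x) x := fun x => hg0 x (mem_univ x)
  have hWo : ∀ x, c < Q x → W x = 0 := fun x hx => by
    simp only [hW, hYout x hx, map_zero]
  obtain ⟨k, hk⟩ : ∃ k : ℝ, ∀ x, c < Q x → g0 x = k := by
    by_cases h : ∃ p : E n, c < Q p
    · obtain ⟨p, hp⟩ := h
      exact ⟨g0 p, fun x hx => out_const hg0' hc hWo x p hx hp⟩
    · push Not at h
      exact ⟨0, fun x hx => absurd hx (not_lt.2 (h x))⟩
  have hgd : ∀ x, HasFDerivAt (fun x => g0 x - k) (W x) x := fun x => (hg0' x).sub_const k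
  refine ⟨fun x => g0 x - k, ?_, fun x hx => sub_eq_zero.2 (hk x hx), fun z => ?_⟩
  · refine contDiff_infty_iff_fderiv.2 ⟨fun x => (hgd x).differentiableAt, ?_⟩
    have : fderiv ℝ (fun x => g0 x - k) = W := funext fun x => (hgd x).fderiv
    rw [this]
    exact sW
  · refine om_ext fun v => ?_
    rw [om_XH, (hgd _).fderiv, ← hYu]
    rfl

end Pool.Agent.Q175.HM
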