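import Pool.Agent.Y453.HB.Fin
import Pool.Agent.GR.Flow

/-!
Flows of smooth compactly supported Hamiltonians are smooth and preserve the symplectic form.
-/

set_option autoImplicit false

open Set Filter Topology Function

namespace Pool.Agent.Q175.HM

open Pool.Agent.Y453.HB

variable {n : ℕ}

/-- smooth maps -/
abbrev Smo {V W : Type} [NormedAddCommGroup V] [NormedSpace ℝ V] [NormedAddCommGroup W]
    [NormedSpace ℝ W] (f : V → W) : Prop := ContDiff ℝ ((⊤ : ℕ∞) : WithTop ℕ∞) f

/-- the symplectic form -/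
def om (a b : E n) : ℝ := ∑ i, (a.1 i * b.2 i - a.2 i * b.1 i)

/-- the symplectic form as a continuous bilinear map -/
noncomputable def omL (n : ℕ) : E n →L[ℝ] E n →L[ℝ] ℝ :=
  LinearMap.toContinuousLinearMap
    ((LinearMap.toContinuousLinearMap : (E n →ₗ[ℝ] ℝ) ≃ₗ[ℝ] (E n →L[ℝ] ℝ)).toLinearMap ∘ₗ
      LinearMap.mk₂ ℝ (om : E n → E n → ℝ)
        (fun a b c => by
          unfold om
          rw [← Finset.sum_add_distrib]
          refine Finset.sum_congr rfl fun i _ => ?_
          simp only [Prod.fst_add, Prod.snd_add, Pi.add_apply]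
          ring)
        (fun a b c => by
          unfold om
          rw [smul_eq_mul, Finset.mul_sum]
          refine Finset.sum_congr rfl fun i _ => ?_
          simp only [Prod.smul_fst, Prod.smul_snd, Pi.smul_apply, smul_eq_mul]
          ring)
        (fun a b c => by
          unfold om
          rw [← Finset.sum_add_distrib]
          refine Finset.sum_congr rfl fun i _ => ?_
          simp only [Prod.fst_add, Prod.snd_add, Pi.add_apply]
          ring)
        (fun a b c => by
          unfold om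
          rw [smul_eq_mul, Finset.mul_sum]
          refine Finset.sum_congr rfl fun i _ => ?_
          simp only [Prod.smul_fst, Prod.smul_snd, Pi.smul_apply, smul_eq_mul]
          ring))

@[simp] theorem omL_apply (a b : E n) : omL n a b = om a b := rfl

theorem om_swap (a b : E n) : om a b = -om b a := by
  unfold om
  rw [← Finset.sum_neg_distrib]
  refine Finset.sum_congr rfl fun i _ => ?_
  ring

theorem lin_eq (L : E n →L[ℝ] ℝ) (v : E n) :
    L v = ∑ i, (v.1 i * L ((Pi.single i (1 : ℝ) : Fin n → ℝ), (0 : Fin n → ℝ)) +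
      v.2 i * L ((0 : Fin n → ℝ), (Pi.single i (1 : ℝ) : Fin n → ℝ))) := by
  have h1 : v = ∑ i, (v.1 i • (((Pi.single i (1 : ℝ) : Fin n → ℝ), (0 : Fin n → ℝ)) : E n) +
      v.2 i • (((0 : Fin n → ℝ), (Pi.single i (1 : ℝ) : Fin n → ℝ)) : E n)) := by
    refine Prod.ext ?_ ?_
    · funext j
      rw [Prod.fst_sum, Finset.sum_apply]
      rw [Finset.sum_eq_single j]
      · simp
      · intro i _ hij
        simp [hij.symm]
      · simp
    · funext j
      rw [Prod.snd_sum, Finset.sum_apply]
      rw [Finset.sum_eq_single j]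
      · simp
      · intro i _ hij
        simp [hij.symm]
      · simp
  conv_lhs => rw [h1]
  rw [map_sum]
  refine Finset.sum_congr rfl fun i _ => ?_
  rw [map_add, map_smul, map_smul, smul_eq_mul, smul_eq_mul]

/-- the Hamiltonian vector field is the symplectic gradient -/
theorem om_XH (h : E n → ℝ) (p v : E n) : om (XH h p) v = fderiv ℝ h p v := by
  rw [lin_eq (fderiv ℝ h p) v]
  unfold om XH
  refine Finset.sum_congr rfl fun i _ => ?_
  ring

/-- nondegeneracy -/
theorem om_ext {a b : E n} (h : ∀ v, om a v = om b v) : a = b := by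
  refine Prod.ext ?_ ?_
  · funext j
    have := h ((0 : Fin n → ℝ), (Pi.single j (1 : ℝ) : Fin n → ℝ))
    unfold om at this
    rw [Finset.sum_eq_single j (by
      intro i _ hij
      simp [hij]) (by simp), Finset.sum_eq_single j (by
      intro i _ hij
      simp [hij]) (by simp)] at this
    simpa using this
  · funext j
    have := h ((Pi.single j (1 : ℝ) : Fin n → ℝ), (0 : Fin n → ℝ))
    unfold om at this
    rw [Finset.sum_eq_single j (by
      intro i _ hij
      simp [hij]) (by simp), Finset.sum_eq_single j (by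
      intro i _ hij
      simp [hij]) (by simp)] at this
    simpa using this

theorem smo_slice {H : ℝ → E n → ℝ} (hH : Smo (uncurry H)) (t : ℝ) : Smo (H t) :=
  hH.comp (contDiff_const.prodMk contDiff_id)

theorem fderiv_slice {W : Type} [NormedAddCommGroup W] [NormedSpace ℝ W]
    {F : ℝ × E n → W} (hF : Differentiable ℝ F) (t : ℝ) (x v : E n) :
    fderiv ℝ (fun y => F (t, y)) x v = fderiv ℝ F (t, x) (0, v) := by
  have h1 : HasFDerivAt (fun y => F (t, y))
      ((fderiv ℝ F (t, x)).comp (ContinuousLinearMap.inr ℝ ℝ (E n))) x :=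
    HasFDerivAt.comp (g := F) x (hF (t, x)).hasFDerivAt (hasFDerivAt_prodMk_right t x)
  rw [h1.fderiv]
  rfl

/-- the vector field of a time dependent Hamiltonian -/
noncomputable def G (H : ℝ → E n → ℝ) (p : ℝ × E n) : E n := XH (H p.1) p.2

theorem smo_G {H : ℝ → E n → ℝ} (hH : Smo (uncurry H)) : Smo (G H) := by
  have h1 : Smo (fderiv ℝ (uncurry H)) := hH.fderiv_right (by simp)
  have hd : Differentiable ℝ (uncurry H) := hH.differentiable (by simp)
  have h2 : ∀ v : E n, Smo (fun p : ℝ × E n => fderiv ℝ (H p.1) p.2 v) := by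
    intro v
    have : (fun p : ℝ × E n => fderiv ℝ (H p.1) p.2 v) =
        fun p => fderiv ℝ (uncurry H) p (0, v) := by
      funext p
      exact fderiv_slice hd p.1 p.2 v
    rw [this]
    exact h1.clm_apply contDiff_const
  unfold G XH
  refine ContDiff.prodMk ?_ ?_
  · exact contDiff_pi.2 fun i => h2 _
  · exact contDiff_pi.2 fun i => (h2 _).neg

/-- the derivative of the vector field is infinitesimally symplectic -/
theorem om_dG {H : ℝ → E n → ℝ} (hH : Smo (uncurry H)) (p : ℝ × E n) (a b : E n) :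
    om (fderiv ℝ (G H) p (0, a)) b + om a (fderiv ℝ (G H) p (0, b)) = 0 := by
  have h1 : Smo (fderiv ℝ (uncurry H)) := hH.fderiv_right (by simp)
  have hd : Differentiable ℝ (uncurry H) := hH.differentiable (by simp)
  have hG := smo_G hH
  have key : ∀ a b : E n, om (fderiv ℝ (G H) p (0, a)) b =
      fderiv ℝ (fderiv ℝ (uncurry H)) p (0, a) (0, b) := by
    intro a b
    have e1 : (fun q : ℝ × E n => (omL n).flip b (G H q)) =
        fun q => fderiv ℝ (uncurry H) q (0, b) := by
      funext q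
      change om (XH (H q.1) q.2) b = _
      rw [om_XH]
      exact fderiv_slice hd q.1 q.2 b
    have e2 : HasFDerivAt (fun q : ℝ × E n => (omL n).flip b (G H q))
        (((omL n).flip b).comp (fderiv ℝ (G H) p)) p :=
      ((omL n).flip b).hasFDerivAt.comp p ((hG.differentiable (by simp)) p).hasFDerivAt
    have e3 : HasFDerivAt (fun q : ℝ × E n => fderiv ℝ (uncurry H) q (0, b))
        ((fderiv ℝ (fderiv ℝ (uncurry H)) p).flip (0, b)) p := by
      have := ((h1.differentiable (by simp)) p).hasFDerivAt.clm_apply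
        (hasFDerivAt_const ((0 : ℝ), b) p)
      simpa using this
    rw [e1] at e2
    have e4 := congrArg (fun T => T ((0 : ℝ), a)) (e2.unique e3)
    exact e4
  have hs : IsSymmSndFDerivAt ℝ (uncurry H) p := by
    refine (hH.contDiffAt).isSymmSndFDerivAt ?_
    rw [minSmoothness_of_isRCLikeNormedField]
    exact WithTop.coe_le_coe.2 le_top
  have h2 := hs (0, a) (0, b)
  rw [om_swap a, key, key, h2]
  ring

/-- the suspended vector field -/
noncomputable def su (H : ℝ → E n → ℝ) (p : ℝ × E n) : ℝ × E n := (1, G H p)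

theorem su_lip {H : ℝ → E n → ℝ} (hH : Smo (uncurry H)) (hc : HasCompactSupport (uncurry H)) :
    (∃ K, LipschitzWith K (su H)) ∧ ∃ M : NNReal, ∀ p, ‖su H p‖ ≤ M := by
  have hG := smo_G hH
  have hcG : HasCompactSupport (fun p => ((0 : ℝ), G H p)) := by
    refine HasCompactSupport.intro hc fun p hp => ?_
    have h1 : uncurry H =ᶠ[𝓝 p] fun _ => (0 : ℝ) := by
      filter_upwards [(isClosed_tsupport (uncurry H)).isOpen_compl.mem_nhds hp] with q hq
      exact image_eq_zero_of_notMem_tsupport hq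
    have h2 : G H p = 0 := by
      refine om_ext fun v => ?_
      have hd : Differentiable ℝ (uncurry H) := hH.differentiable (by simp)
      have h3 : om (G H p) v = fderiv ℝ (H p.1) p.2 v := om_XH _ _ _
      rw [h3]
      have h4 : fderiv ℝ (H p.1) p.2 v = fderiv ℝ (uncurry H) p (0, v) :=
        fderiv_slice hd p.1 p.2 v
      rw [h4, h1.fderiv_eq]
      simp [om]
    simp only [h2]
    rfl
  have hs : Smo (fun p : ℝ × E n => ((0 : ℝ), G H p)) := contDiff_const.prodMk hG
  have e : su H = fun p => ((1 : ℝ), (0 : E n)) + ((0 : ℝ), G H p) := by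
    funext p
    simp [su]
  obtain ⟨C, hC⟩ := ContDiff.lipschitzWith_of_hasCompactSupport hcG hs (by simp)
  obtain ⟨M, hM⟩ := hcG.exists_bound_of_continuous hs.continuous
  refine ⟨⟨C, ?_⟩, ⟨⟨1 + max M 0, by positivity⟩, fun p => ?_⟩⟩
  · rw [e]
    refine LipschitzWith.of_dist_le_mul fun p q => ?_
    rw [dist_add_left]
    exact hC.dist_le_mul p q
  · rw [e]
    refine (norm_add_le _ _).trans ?_
    have h1 : ‖((1 : ℝ), (0 : E n))‖ ≤ 1 := by
      rw [Prod.norm_def]
      simp
    change _ ≤ 1 + max M 0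
    exact add_le_add h1 ((hM p).trans (le_max_left _ _))

/-- flows of smooth Hamiltonians with compact support in space and time are smooth -/
theorem smo_flow {H : ℝ → E n → ℝ} (hH : Smo (uncurry H)) (hc : HasCompactSupport (uncurry H))
    {ψ : ℝ → E n → E n} (h0 : ∀ x, ψ 0 x = x)
    (hd : ∀ (t : ℝ) (x : E n), HasDerivAt (fun s : ℝ => ψ s x) (XH (H t) (ψ t x)) t) :
    Smo (uncurry ψ) := by
  obtain ⟨⟨K, hK⟩, ⟨M, hM⟩⟩ := su_lip hH hc
  choose g g0 hg using fun x => Pool.Agent.GR.Flow.exists_solution hK hM x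
  have hflow : Pool.Agent.GR.Flow.IsFlowOf (su H) (fun t x => g x t) :=
    ⟨fun x => g0 x, fun x t => hg x t⟩
  have hsu : Smo (su H) := contDiff_const.prodMk (smo_G hH)
  have e : uncurry ψ = fun p : ℝ × E n => (g (0, p.2) p.1).2 := by
    funext p
    obtain ⟨t, x⟩ := p
    change ψ t x = (g (0, x) t).2
    have h1 : (fun t => (t, ψ t x)) = g (0, x) := by
      refine ODE_solution_unique_univ (v := fun _ => su H) (s := fun _ => univ) (K := K) (t₀ := 0)
        (fun t => hK.lipschitzOnWith) (fun t => ⟨?_, trivial⟩)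
        (fun t => ⟨hg _ t, trivial⟩) ?_
      · exact (hasDerivAt_id t).prodMk (hd t x)
      · simp only [h0]
        rw [g0]
    rw [← h1]
  rw [e]
  refine contDiff_infty.2 fun m => ?_
  rcases Nat.eq_zero_or_pos m with hm | hm
  · subst hm
    have := Pool.Agent.GR.Flow.contDiff_flow (X := ⟨su H, hsu.continuous⟩) (m := 1) (by norm_num)
      (hsu.of_le (by simp)) hK hflow
    refine (ContDiff.snd (this.comp (g := fun p : ℝ × (ℝ × E n) => g p.2 p.1)
      (f := fun p : ℝ × E n => (p.1, ((0 : ℝ), p.2))) ?_)).of_le (by simp)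
    exact contDiff_fst.prodMk (contDiff_const.prodMk contDiff_snd)
  · have := Pool.Agent.GR.Flow.contDiff_flow (X := ⟨su H, hsu.continuous⟩) (m := m) hm.ne'
      (hsu.of_le (by exact_mod_cast le_top)) hK hflow
    refine (ContDiff.snd (this.comp (g := fun p : ℝ × (ℝ × E n) => g p.2 p.1)
      (f := fun p : ℝ × E n => (p.1, ((0 : ℝ), p.2))) ?_))
    exact contDiff_fst.prodMk (contDiff_const.prodMk contDiff_snd)

/-- flows of smooth Hamiltonians preserve the symplectic form -/
theorem om_flow {H : ℝ → E n → ℝ} (hH : Smo (uncurry H))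
    {ψ : ℝ → E n → E n} (h0 : ∀ x, ψ 0 x = x)
    (hd : ∀ (t : ℝ) (x : E n), HasDerivAt (fun s : ℝ => ψ s x) (XH (H t) (ψ t x)) t)
    (hψ : Smo (uncurry ψ)) (t : ℝ) (x a b : E n) :
    om (fderiv ℝ (ψ t) x a) (fderiv ℝ (ψ t) x b) = om a b := by
  have hG := smo_G hH
  have hdψ : Differentiable ℝ (uncurry ψ) := hψ.differentiable (by simp)
  have h1 : Smo (fderiv ℝ (uncurry ψ)) := hψ.fderiv_right (by simp)
  have hsl : ∀ t x v, fderiv ℝ (ψ t) x v = fderiv ℝ (uncurry ψ) (t, x) (0, v) :=
    fun t x v => fderiv_slice hdψ t x v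
  -- time derivative
  have e1 : ∀ p : ℝ × E n, fderiv ℝ (uncurry ψ) p (1, 0) = G H (p.1, uncurry ψ p) := by
    intro p
    have h2 : HasDerivAt (fun s : ℝ => (s, p.2)) ((1 : ℝ), (0 : E n)) p.1 :=
      (hasDerivAt_id p.1).prodMk (hasDerivAt_const p.1 p.2)
    have h3 := (hdψ p).hasFDerivAt.comp_hasDerivAt (x := p.1) (f := fun s : ℝ => (s, p.2)) h2
    exact h3.unique (hd p.1 p.2)
  -- variational equation
  have key : ∀ (t : ℝ) (x v : E n), HasDerivAt (fun s : ℝ => fderiv ℝ (ψ s) x v)
      (fderiv ℝ (G H) (t, ψ t x) (0, fderiv ℝ (ψ t) x v)) t := by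
    intro t x v
    have h2 : HasDerivAt (fun s : ℝ => (s, x)) ((1 : ℝ), (0 : E n)) t :=
      (hasDerivAt_id t).prodMk (hasDerivAt_const t x)
    have h3 := ((h1.differentiable (by simp)) (t, x)).hasFDerivAt.comp_hasDerivAt (x := t)
      (f := fun s : ℝ => (s, x)) h2
    have h4 : HasDerivAt (fun s : ℝ => fderiv ℝ (uncurry ψ) (s, x) (0, v))
        (fderiv ℝ (fderiv ℝ (uncurry ψ)) (t, x) (1, 0) (0, v)) t := by
      have := h3.clm_apply (hasDerivAt_const t ((0 : ℝ), v))
      simpa using this
    have h5 : (fun s : ℝ => fderiv ℝ (ψ s) x v) =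
        fun s : ℝ => fderiv ℝ (uncurry ψ) (s, x) (0, v) := by
      funext s
      exact hsl s x v
    have hs : IsSymmSndFDerivAt ℝ (uncurry ψ) (t, x) := by
      refine (hψ.contDiffAt).isSymmSndFDerivAt ?_
      rw [minSmoothness_of_isRCLikeNormedField]
      exact WithTop.coe_le_coe.2 le_top
    have h6 : fderiv ℝ (fderiv ℝ (uncurry ψ)) (t, x) (0, v) (1, 0) =
        fderiv ℝ (G H) (t, ψ t x) (0, fderiv ℝ (ψ t) x v) := by
      have h7 : HasFDerivAt (fun p : ℝ × E n => fderiv ℝ (uncurry ψ) p (1, 0))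
          ((fderiv ℝ (fderiv ℝ (uncurry ψ)) (t, x)).flip (1, 0)) (t, x) := by
        have := ((h1.differentiable (by simp)) (t, x)).hasFDerivAt.clm_apply
          (hasFDerivAt_const ((1 : ℝ), (0 : E n)) (t, x))
        simpa using this
      have h8 : HasFDerivAt (fun p : ℝ × E n => G H (p.1, uncurry ψ p))
          ((fderiv ℝ (G H) (t, ψ t x)).comp ((ContinuousLinearMap.fst ℝ ℝ (E n)).prod
            (fderiv ℝ (uncurry ψ) (t, x)))) (t, x) := by
        refine HasFDerivAt.comp (g := G H) (f := fun p : ℝ × E n => (p.1, uncurry ψ p)) (t, x)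
          ((hG.differentiable (by simp)) _).hasFDerivAt ?_
        exact hasFDerivAt_fst.prodMk (hdψ (t, x)).hasFDerivAt
      have h9 : (fun p : ℝ × E n => fderiv ℝ (uncurry ψ) p (1, 0)) =
          fun p => G H (p.1, uncurry ψ p) := funext e1
      rw [h9] at h7
      have := congrArg (fun T => T ((0 : ℝ), v)) (h7.unique h8)
      change fderiv ℝ (fderiv ℝ (uncurry ψ)) (t, x) (0, v) (1, 0) =
        fderiv ℝ (G H) (t, ψ t x) (0, fderiv ℝ (uncurry ψ) (t, x) (0, v)) at this
      rw [this, hsl]
    rw [h5]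
    rw [hs (1, 0) (0, v), h6] at h4
    exact h4
  have hder : ∀ t : ℝ, HasDerivAt (fun s : ℝ => om (fderiv ℝ (ψ s) x a) (fderiv ℝ (ψ s) x b)) 0
      t := by
    intro t
    have h2 := (omL n).hasFDerivAt.comp_hasDerivAt t (key t x a)
    have h3 := h2.clm_apply (key t x b)
    have h4 := om_dG hH (t, ψ t x) (fderiv ℝ (ψ t) x a) (fderiv ℝ (ψ t) x b)
    have h5 : (omL n) (fderiv ℝ (G H) (t, ψ t x) (0, fderiv ℝ (ψ t) x a)) (fderiv ℝ (ψ t) x b) +
        (omL n) (fderiv ℝ (ψ t) x a) (fderiv ℝ (G H) (t, ψ t x) (0, fderiv ℝ (ψ t) x b)) = 0 := h4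
    rw [← h5]
    exact h3
  have hconst := is_const_of_deriv_eq_zero (fun t => (hder t).differentiableAt)
    (fun t => (hder t).deriv) t 0
  have hid : ψ 0 = id := funext h0
  rw [hconst, hid, fderiv_id]
  rfl

end Pool.Agent.Q175.HM
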