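import Pool.Agent.Q175.HM.Cor2
import Pool.Agent.Q175.HM.Inst

/-!
Transport of dilations along an isomorphism of groups.
-/

set_option autoImplicit false

open Set Filter Topology Function Cardinal

namespace Pool.Agent.Q175.HM

variable {G G' : Type} [Group G] [Group G']

/-- transport along an isomorphism -/
def DS.tr (S : DS G) (e : G' ≃* G) : DS G' where
  d := fun s => (e.symm.toMonoidHom.comp (S.d s)).comp e.toMonoidHom
  mul := fun s t hs hs1 ht ht1 g => by
    change e.symm (S.d s (e (e.symm (S.d t (e g))))) = e.symm (S.d (s * t) (e g))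
    rw [e.apply_symm_apply, S.mul s t hs hs1 ht ht1]
  union := fun g => by
    obtain ⟨t, ht, ht1, h, hh⟩ := S.union (e g)
    refine ⟨t, ht, ht1, e.symm h, ?_⟩
    change g = e.symm (S.d t (e (e.symm h)))
    rw [e.apply_symm_apply, ← hh, e.symm_apply_apply]
  disp := by
    obtain ⟨r, hr, hr1, R, h⟩ := S.disp
    refine ⟨r, hr, hr1, e.symm R, fun g h' => ?_⟩
    have h1 := (h (e g) (e h')).map e.symm.toMonoidHom
    have e1 : e.symm.toMonoidHom (R * S.d r (e h') * R⁻¹) =
        e.symm R * e.symm (S.d r (e h')) * (e.symm R)⁻¹ := by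
      change e.symm (R * S.d r (e h') * R⁻¹) = _
      rw [map_mul, map_mul, map_inv]
    rw [e1] at h1
    exact h1
  key := fun A _ c hconj hcomm s hs hs1 r hr hrs g => by
    obtain ⟨Φ, hΦ⟩ := S.key A (fun x => c (e.symm x))
      (fun φ ψ => by
        simp only [map_mul, map_inv]
        exact hconj _ _)
      (fun φ ψ h => by
        simp only [map_mul]
        refine hcomm _ _ ?_
        rw [← map_mul, ← map_mul, h]) s hs hs1 r hr hrs (e g)
    refine ⟨e.symm Φ, ?_⟩
    change c (e.symm (S.d r (e g))) = c (e.symm Φ) - c (e.symm (S.d s (e (e.symm Φ))))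
    rw [e.apply_symm_apply]
    exact hΦ

end Pool.Agent.Q175.HM
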