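import Pool.Agent.Results.MP_68f289_gt.HomogeneousQuasimorphisms
import Pool.Agent.Q175.HM.Tr

/-!
The dilations of the group of Hamiltonian homeomorphisms of the ball, for the results on its
homomorphisms, class functions and invariant subgroups.
-/

set_option autoImplicit false

open Cardinal

namespace Pool.Agent.Q175.HM.Spl

open Pool.Agent.Results.MP_68f289_gt.HomogeneousQuasimorphisms

open Pool.Agent.Q175.HM in
/-- the dilations -/
noncomputable def ds {n : ℕ} (hn : 0 < n) : DS (HamGroup n) := (hamDS hn).tr (iso n)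

theorem ds_iff {n : ℕ} (hn : 0 < n) {s : ℝ} (hs : 0 < s) (hs1 : s ≤ 1) {φ φ' : HamGroup n} :
    IsDilate s φ φ' ↔ (ds hn).d s φ = φ' := by
  have e : (ds hn).d s φ = (iso n).symm (Pool.Agent.Q175.HM.dd n s (iso n φ)) := rfl
  constructor
  · intro h
    have h1 : Pool.Agent.Y453.HB.IsDilate s (iso n φ) (iso n φ') := iso_dilate.2 h
    rw [e, Pool.Agent.Q175.HM.dd_eq hs hs1 h1, MulEquiv.symm_apply_apply]
  · intro h
    refine iso_dilate.1 ?_
    rw [← h, e, MulEquiv.apply_symm_apply]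
    exact Pool.Agent.Q175.HM.dd_isDilate hs hs1 _

theorem hd {n : ℕ} (hn : 0 < n) {s : ℝ} (hs : 0 < s) (hs1 : s ≤ 1) (φ : HamGroup n) :
    IsDilate s φ ((ds hn).d s φ) :=
  (ds_iff hn hs hs1).2 rfl

end Pool.Agent.Q175.HM.Spl
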